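import Mathlib

/-!
Interface for the project T1 on `MP_c59857_nt`: basic definitions shared by the modules.
-/

set_option autoImplicit false

open Finset Filter

namespace Pool.Agent.H24.MR

/-- The Liouville function with real values (`1` at `0`). -/
noncomputable def lam (n : ℕ) : ℝ := (-1) ^ (ArithmeticFunction.cardFactors n)

/-- A finitely additive shift invariant probability on all subsets of `ℕ`. -/
structure FinAddInv (μ : Set ℕ → ℝ) : Prop where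
  nonneg : ∀ A, 0 ≤ μ A
  univ : μ Set.univ = 1
  add : ∀ A B, Disjoint A B → μ (A ∪ B) = μ A + μ B
  shift : ∀ A, μ {n | n + 1 ∈ A} = μ A

open Classical in
/-- Density along an ultrafilter `U` and a sequence of lengths `N k`. -/
noncomputable def dens (U : Ultrafilter ℕ) (N : ℕ → ℕ) (A : Set ℕ) : ℝ :=
  limUnder (U : Filter ℕ)
    (fun k => (((Finset.range (N k)).filter (fun n => n ∈ A)).card : ℝ) / (N k : ℝ))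

/-! Statements of the modules (as propositions). -/

/-- [ME] weak Mertens in progressions with absolute constants. -/
def StatementME : Prop :=
  ∃ (C : ℕ) (c : ℝ), 2 ≤ C ∧ 0 < c ∧ ∀ q : ℕ, 0 < q → ∃ x₀ : ℝ, ∀ x : ℝ, x₀ ≤ x →
    c / (Nat.totient q : ℝ) ≤
      ∑ p ∈ (Finset.Ioc ⌊x⌋₊ ⌊x ^ C⌋₊).filter (fun p => p.Prime ∧ p ≡ 1 [MOD q]), (1 : ℝ) / p

/-- [EN] entropy decrement. -/
def StatementEN : Prop :=
  ∃ c₀ : ℝ, 0 < c₀ ∧ ∀ μ : Set ℕ → ℝ, FinAddInv μ →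
    ∀ (a : ℕ → ℝ) (Q K u₀ : ℕ) (σ η : ℝ), (∀ n, a n = 1 ∨ a n = -1) → 0 < Q → 0 < η →
    (∀ p : ℕ, p.Prime → p ≡ 1 [MOD Q] →
      μ {y | y ≡ u₀ [MOD Q] ∧ p ∣ y ∧ a y * a (y + p * K) ≠ σ} ≤ η / (p * Q)) →
    ∀ m₀ : ℕ, ∃ m, m₀ ≤ m ∧ ∃ G : Finset ℕ,
      (∀ p ∈ G, p.Prime ∧ p ≡ 1 [MOD Q] ∧ 2 ^ m < p ∧ p ≤ 2 ^ (m + 1)) ∧
      c₀ * 2 ^ m / (Nat.totient Q * m) ≤ (G.card : ℝ) ∧
      ∀ p ∈ G, μ {y | y ≡ u₀ [MOD Q] ∧ a y * a (y + p * K) ≠ σ} ≤ 100 * η / Q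

/-- [PS] the difference set of a dense set of primes has positive density. -/
def StatementPS : Prop :=
  ∀ c₀ : ℝ, 0 < c₀ → ∃ c₁ : ℝ, 0 < c₁ ∧ ∀ Q : ℕ, 0 < Q → Even Q → ∃ m₁ : ℕ, ∀ m, m₁ ≤ m →
    ∀ G : Finset ℕ,
      (∀ p ∈ G, p.Prime ∧ p ≡ 1 [MOD Q] ∧ 2 ^ m < p ∧ p ≤ 2 ^ (m + 1)) →
      c₀ * 2 ^ m / (Nat.totient Q * m) ≤ (G.card : ℝ) →
      c₁ * 2 ^ m / Q ≤ (((G ×ˢ G).image (fun pq => (pq.1 : ℤ) - pq.2)).card : ℝ)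

/-- [RA] the reduction to a two point relation in a progression. -/
def StatementRA : Prop :=
  ∀ (r : ℕ) (α : Fin r → ℤ) (ε : Fin r → ℕ) (q n₀ : ℕ), Function.Injective α →
    (∀ i, 1 ≤ ε i) → (∃ i, Odd (ε i)) → 0 < q →
    ∏ i, ArithmeticFunction.moebius ((n₀ + α i).toNat) ^ ε i ≠ 0 →
    ∀ (U : Ultrafilter ℕ) (N : ℕ → ℕ) (σ : ℤ), Tendsto N (U : Filter ℕ) atTop →
    (σ = 1 ∨ σ = -1) →
    dens U N {n | n ≡ n₀ [MOD q] ∧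
      ∏ i, ArithmeticFunction.moebius (((n : ℤ) + α i).toNat) ^ ε i = -σ} = 0 →
    ∀ η : ℝ, 0 < η → ∃ (Q K u₀ : ℕ) (τ : ℝ), 0 < Q ∧ Even Q ∧ 0 < K ∧
      ∀ p : ℕ, (p = 1 ∨ p.Prime) → p ≡ 1 [MOD Q] →
        dens U N {y | y ≡ u₀ [MOD Q] ∧ p ∣ y ∧ lam y * lam (y + p * K) ≠ τ} ≤ η / (p * Q)

/-- [MR] Matomaki-Radziwill theorem for the Liouville function in progressions. -/
def StatementMR : Prop :=
  ∀ (W b : ℕ) (ε : ℝ), 0 < W → 0 < ε → ∃ h₀ : ℕ, ∀ h, h₀ ≤ h → ∃ N₀ : ℕ, ∀ N, N₀ ≤ N →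
    ∑ z ∈ Finset.range N, (∑ y ∈ Finset.range h, lam (W * (z + y) + b)) ^ 2 ≤ ε * h ^ 2 * N

end Pool.Agent.H24.MR
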