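import Mathlib
import Pool.Agent.H24.MR.Interface

/-!
Interface for the Matomaki-Radziwill part ([MR]) of project T1 on `MP_c59857_nt`.
-/

set_option autoImplicit false

open Finset Filter

namespace Pool.Agent.H24.MR

/-- `n^{-it}` -/
noncomputable def nit (n : ℕ) (t : ℝ) : ℂ :=
  Complex.exp (-((t * Real.log n : ℝ) : ℂ) * Complex.I)

/-- the Liouville function restricted to a residue class -/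
noncomputable def fW (W b n : ℕ) : ℝ := if n ≡ b [MOD W] then lam n else 0

/-- tent function -/
noncomputable def tent (u : ℝ) : ℝ := max 0 (1 - |u|)

/-- the Dirichlet polynomial of `fW` at scale `X` -/
noncomputable def FX (W b : ℕ) (X t : ℝ) : ℂ :=
  ∑ n ∈ Finset.Icc 1 ⌊X * Real.exp 1⌋₊,
    ((fW W b n / n * tent (Real.log n - Real.log X) : ℝ) : ℂ) * nit n t

/-- cell index of a prime -/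
noncomputable def cell (H p : ℕ) : ℕ := ⌊(H : ℝ) * Real.log p⌋₊

/-- `∑_{p ∈ P} p^{-1-it}` -/
noncomputable def QP (P : Finset ℕ) (t : ℝ) : ℂ := ∑ p ∈ P, (1 / (p : ℂ)) * nit p t

/-- [COV] covering/pigeonhole step (`n` is `2^m`). -/
def StatementCOV : Prop :=
  ∀ c₁ : ℝ, 0 < c₁ → ∃ r R : ℕ, 0 < r ∧ 0 < R ∧
    ∀ μ : Set ℕ → ℝ, FinAddInv μ →
    ∀ (a : ℕ → ℝ) (Q K u₀ n : ℕ) (σ δ : ℝ), (∀ n, a n = 1 ∨ a n = -1) → 0 < Q → 0 < K → 0 ≤ δ →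
    ∀ G : Finset ℕ, (∀ p ∈ G, p ≡ 1 [MOD Q] ∧ n < p ∧ p ≤ 2 * n) →
    c₁ * n / Q ≤ (((G ×ˢ G).image (fun pq => (pq.1 : ℤ) - pq.2)).card : ℝ) →
    (∀ p ∈ G, μ {y | y ≡ u₀ [MOD Q] ∧ a y * a (y + p * K) ≠ σ} ≤ δ / Q) →
    ∀ y : ℕ, y * r * Q ≤ n →
      μ {z | z ≡ u₀ + K [MOD Q] ∧ a z ≠ a (z + Q * K * R * y)} ≤ 8 * R * δ / Q

/-- [BE1] power saving for zeta-like block sums. -/
def StatementBE1 : Prop :=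
  ∀ B : ℕ, ∃ C δ : ℝ, 0 < C ∧ 0 < δ ∧ ∀ (a b : ℕ) (θ σ τ : ℝ), 1 ≤ a → a ≤ b → b ≤ 4 * a →
    0 ≤ θ → θ ≤ 1 → 0 ≤ σ → σ ≤ 1 → |τ| ≤ (a : ℝ) ^ B →
    ‖∑ n ∈ Finset.Ioc a b, (((n : ℝ) + θ : ℝ) : ℂ) ^ (-(1 + σ : ℂ) - τ * Complex.I)
      - ∫ x in (a : ℝ)..b, ((x + θ : ℝ) : ℂ) ^ (-(1 + σ : ℂ) - τ * Complex.I)‖
      ≤ C * (a : ℝ) ^ (-δ)

/-- [BE2] square root bound for zeta-like block sums. -/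
def StatementBE2 : Prop :=
  ∃ C : ℝ, 0 < C ∧ ∀ (a b : ℕ) (τ : ℝ), 1 ≤ a → a ≤ b → b ≤ 4 * a →
    ‖∑ n ∈ Finset.Ioc a b, ((n : ℝ) : ℂ) ^ (-(1 : ℂ) - τ * Complex.I)
      - ∫ x in (a : ℝ)..b, ((x : ℝ) : ℂ) ^ (-(1 : ℂ) - τ * Complex.I)‖
      ≤ C * (1 + Real.log a) * (Real.sqrt a + Real.sqrt |τ|) / a

/-- [GM] Gaussian weighted mean value theorem. -/
def StatementGM : Prop :=
  ∃ C : ℝ, 0 < C ∧ ∀ (T : ℝ) (S : Finset ℕ) (a : ℕ → ℂ), 4 ≤ T → (∀ n ∈ S, 1 ≤ n) →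
    ∫ t : ℝ, ‖∑ n ∈ S, a n * nit n t‖ ^ 2 * Real.exp (-(t / T) ^ 2)
      ≤ C * ∑ n ∈ S, ‖a n‖ ^ 2 * (T + n)

/-- [TKD] Turan-Kubilius decomposition. -/
def StatementTKD : Prop :=
  ∃ C : ℝ, 0 < C ∧ ∀ (W b H : ℕ) (P : Finset ℕ) (L X T : ℝ), 0 < W → 0 < H →
    (∀ p ∈ P, p.Prime ∧ p ≡ 1 [MOD W] ∧ (p : ℝ) ≤ X) → L = ∑ p ∈ P, (1 : ℝ) / p → 1 ≤ L →
    4 ≤ T → T ≤ X →
    ∃ E : ℝ → ℂ, Continuous E ∧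
      (∀ t, FX W b X t = -(1 / L : ℂ) * ∑ v ∈ P.image (cell H),
        QP (P.filter (fun p => cell H p = v)) t * FX W b (X * Real.exp (-(v : ℝ) / H)) t + E t) ∧
      ∫ t : ℝ, ‖E t‖ ^ 2 * Real.exp (-(t / T) ^ 2) ≤ C * (1 / L + 1 / (H : ℝ) ^ 2 + P.card / X)

/-- [MO] moment bound with amplification. -/
def StatementMO : Prop :=
  ∃ C : ℝ, 0 < C ∧ ∀ (P : Finset ℕ) (V M T : ℝ) (l : ℕ) (a : ℕ → ℂ), 0 ≤ V → 1 ≤ M →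
    (∀ p ∈ P, p.Prime ∧ Real.exp V ≤ p ∧ (p : ℝ) ≤ Real.exp (V + 1)) →
    ∑ p ∈ P, (1 : ℝ) / p ≤ 1 →
    4 ≤ T → T ≤ M * Real.exp (l * V) → (∀ n, ‖a n‖ ≤ 1 / n) →
    ∫ t : ℝ, ‖QP P t ^ l * ∑ n ∈ Finset.Icc ⌈M / Real.exp 1⌉₊ ⌊M * Real.exp 1⌋₊, a n * nit n t‖ ^ 2
        * Real.exp (-(t / T) ^ 2)
      ≤ C * (l.factorial : ℝ) ^ 2 * (l + 1) ^ 2

/-- [LV] number of unit intervals on which a prime polynomial is large. -/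
def StatementLV : Prop :=
  ∃ C : ℝ, 0 < C ∧ ∀ (P : Finset ℕ) (V X lam₀ : ℝ) (l : ℕ) (S : Finset ℤ), 0 ≤ V → 4 ≤ X →
    (∀ p ∈ P, p.Prime ∧ Real.exp V ≤ p ∧ (p : ℝ) ≤ Real.exp (V + 1)) →
    ∑ p ∈ P, (1 : ℝ) / p ≤ 1 → X ≤ Real.exp (l * V) → 0 < lam₀ → 1 ≤ l →
    (∀ j ∈ S, |(j : ℝ)| ≤ 4 * X ∧ ∃ t ∈ Set.Icc (j : ℝ) (j + 1), lam₀ ≤ ‖QP P t‖) →
    (S.card : ℝ) ≤ C * (l.factorial : ℝ) ^ 2 * (l * (V + 1)) ^ 2 * lam₀⁻¹ ^ (2 * l)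

/-- [HM] Halasz-Montgomery for sparse sets (uses BE2). -/
def StatementHM : Prop :=
  ∃ C X₀ : ℝ, 0 < C ∧ ∀ X M : ℝ, X₀ ≤ X → X ^ (24 / 25 : ℝ) ≤ M → M ≤ X →
    ∀ S : Finset ℝ, (∀ s ∈ S, |s| ≤ 2 * X) → (∀ s ∈ S, ∀ t ∈ S, s ≠ t → 1 ≤ |s - t|) →
    (S.card : ℝ) ≤ X ^ (9 / 20 : ℝ) → ∀ a : ℕ → ℂ, (∀ n, ‖a n‖ ≤ 1 / n) →
    ∑ t ∈ S, ‖∑ n ∈ Finset.Icc ⌈M / Real.exp 1⌉₊ ⌊M * Real.exp 1⌋₊, a n * nit n t‖ ^ 2 ≤ C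

/-- [PH] large values of prime polynomials on very sparse sets (uses BE1, Selberg weights). -/
def StatementPH : Prop :=
  ∀ c : ℝ, 0 < c → ∃ C δ X₀ : ℝ, 0 < C ∧ 0 < δ ∧ ∀ X V : ℝ, X₀ ≤ X →
    c * Real.log X ≤ V → V ≤ Real.log X →
    ∀ S : Finset ℝ, (∀ s ∈ S, |s| ≤ 2 * X) → (∀ s ∈ S, ∀ t ∈ S, s ≠ t → 1 ≤ |s - t|) →
    (S.card : ℝ) ≤ X ^ δ →
    ∀ (P : Finset ℕ) (z : ℕ → ℂ), (∀ p ∈ P, p.Prime ∧ Real.exp V ≤ p ∧ (p : ℝ) ≤ Real.exp (V + 1)) →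
    (∀ p, ‖z p‖ ≤ 1) →
    ∑ t ∈ S, ‖∑ p ∈ P, z p / p * nit p t‖ ^ 2 ≤ C / V ^ 2

/-- [SB] uniform sup bound (uses BE1). -/
def StatementSB : Prop :=
  ∀ (W b : ℕ) (ε : ℝ), 0 < W → Nat.Coprime b W → 0 < ε → ∃ X₀ : ℝ, ∀ X t M : ℝ, X₀ ≤ X →
    |t| ≤ 2 * X → X ^ (1 / 2 : ℝ) ≤ M → M ≤ X → ‖FX W b M t‖ ≤ ε

/-- [FS] final stage: the mass of `FX` on few unit intervals is small
(uses ME, TKD, LV, HM, PH, SB). -/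
def StatementFS : Prop :=
  ∀ (W b : ℕ) (ε : ℝ), 0 < W → Nat.Coprime b W → 0 < ε → ∃ X₀ : ℝ, ∀ X : ℝ, X₀ ≤ X →
    ∀ S : Finset ℤ, (∀ k ∈ S, |(k : ℝ)| ≤ X) → (S.card : ℝ) ≤ X ^ (11 / 25 : ℝ) →
    ∑ k ∈ S, ∫ t in (k : ℝ)..(k + 1), ‖FX W b X t‖ ^ 2 ≤ ε

/-- [CH] the chain of scales (uses ME, GM, TKD, MO, LV). -/
def StatementCH : Prop :=
  ∀ (W b : ℕ) (ε : ℝ), 0 < W → Nat.Coprime b W → 0 < ε → ∃ h₀ : ℝ, ∀ h : ℝ, h₀ ≤ h →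
    ∃ X₀ : ℝ, ∀ X : ℝ, X₀ ≤ X → ∃ S : Finset ℤ, (∀ k ∈ S, |(k : ℝ)| ≤ X) ∧
      (S.card : ℝ) ≤ X ^ (11 / 25 : ℝ) ∧
      ∫ t : ℝ, ‖FX W b X t‖ ^ 2 * Real.exp (-(t / (X / h)) ^ 2)
        ≤ ε + ∑ k ∈ S, ∫ t in (k : ℝ)..(k + 1), ‖FX W b X t‖ ^ 2

/-- [MR0] -/
def StatementMR0 : Prop :=
  ∀ (W b : ℕ) (ε : ℝ), 0 < W → Nat.Coprime b W → 0 < ε → ∃ h₀ : ℝ, ∀ h : ℝ, h₀ ≤ h →
    ∃ X₀ : ℝ, ∀ X : ℝ, X₀ ≤ X →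
      ∫ t : ℝ, ‖FX W b X t‖ ^ 2 * Real.exp (-(t / (X / h)) ^ 2) ≤ ε

theorem mr0_of (h1 : StatementFS) (h2 : StatementCH) : StatementMR0 := by
  intro W b ε hW hb hε
  obtain ⟨h₀, hh⟩ := h2 W b (ε / 2) hW hb (by positivity)
  obtain ⟨X1, hX1⟩ := h1 W b (ε / 2) hW hb (by positivity)
  refine ⟨h₀, fun h hh0 => ?_⟩
  obtain ⟨X2, hX2⟩ := hh h hh0
  refine ⟨max X1 X2, fun X hX => ?_⟩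
  obtain ⟨S, hS1, hS2, hS3⟩ := hX2 X ((le_max_right _ _).trans hX)
  have := hX1 X ((le_max_left _ _).trans hX) S hS1 hS2
  linarith

/-- [MRF] deduction of `StatementMR` from `StatementMR0`. -/
def StatementMRF : Prop := StatementMR0 → StatementMR

end Pool.Agent.H24.MR
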