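import Mathlib
import Pool.Agent.H24.Sqf.MonoSum
import Pool.Agent.H24.MR.InterfaceMR

set_option autoImplicit false

namespace Pool.Agent.H24.MR

open Finset Pool.Agent.H24.Sqf

theorem hasDerivAt_DL (hs : List ℕ) : ∀ {x : ℝ} (_ : 0 < x),
    HasDerivAt (D hs Real.log) (D hs (phi 1) x) x := by
  induction hs with
  | nil =>
    intro x hx
    simp only [D, phi, pow_one]
    exact Real.hasDerivAt_log hx.ne'
  | cons h hs ih =>
    intro x hx
    have h1 : HasDerivAt (fun y => D hs Real.log (y + h)) (D hs (phi 1) (x + h)) x :=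
      HasDerivAt.comp_add_const x (h : ℝ) (ih (by positivity))
    exact h1.fun_sub (ih hx)

/-- Two-sided bound for iterated differences of `log`. -/
theorem DL_bounds (h : ℕ) (hs : List ℕ) {x : ℝ} (hx : 0 < x) :
    ((h :: hs).prod : ℝ) * (hs.length.factorial) / (x + (h :: hs).sum) ^ (hs.length + 1)
        ≤ (-1) ^ hs.length * D (h :: hs) Real.log x ∧
      (-1) ^ hs.length * D (h :: hs) Real.log x
        ≤ ((h :: hs).prod : ℝ) * (hs.length.factorial) / x ^ (hs.length + 1) := by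
  rcases Nat.eq_zero_or_pos h with h0 | hpos
  · subst h0
    simp [D]
  · have hposR : (0 : ℝ) < h := by exact_mod_cast hpos
    obtain ⟨ξ, hξ, hmvt⟩ := exists_hasDerivAt_eq_slope (D hs Real.log)
      (fun y => D hs (phi 1) y) (show x < x + h by linarith)
      (by
        intro y hy
        exact (hasDerivAt_DL hs (lt_of_lt_of_le hx hy.1)).continuousAt.continuousWithinAt)
      (by
        intro y hy
        exact hasDerivAt_DL hs (lt_trans hx hy.1))
    have hξpos : 0 < ξ := lt_trans hx hξ.1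
    have e1 : D (h :: hs) Real.log x = D hs (phi 1) ξ * h := by
      simp only [D]
      rw [hmvt]
      have : x + (h : ℝ) - x = h := by ring
      rw [this]
      field_simp
    obtain ⟨l1, l2⟩ := D_bounds hs 1 hξpos
    rw [Nat.one_ascFactorial] at l1 l2
    have e2 : (-1 : ℝ) ^ hs.length * D (h :: hs) Real.log x
        = (h : ℝ) * ((-1) ^ hs.length * D hs (phi 1) ξ) := by
      rw [e1]; ring
    have hprod : (0 : ℝ) ≤ (hs.prod : ℝ) := by positivity
    rw [e2, List.prod_cons, List.sum_cons, Nat.cast_mul, Nat.cast_add]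
    constructor
    · have hle : (ξ + (hs.sum : ℝ)) ^ (hs.length + 1)
          ≤ (x + ((h : ℝ) + hs.sum)) ^ (hs.length + 1) := by
        apply pow_le_pow_left₀ (by positivity)
        have := hξ.2
        linarith
      calc (h : ℝ) * (hs.prod : ℝ) * (hs.length.factorial : ℝ)
            / (x + ((h : ℝ) + hs.sum)) ^ (hs.length + 1)
          ≤ (h : ℝ) * (hs.prod : ℝ) * (hs.length.factorial : ℝ)
            / (ξ + (hs.sum : ℝ)) ^ (hs.length + 1) := by
            apply div_le_div_of_nonneg_left (by positivity) (by positivity) hle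
        _ = (h : ℝ) * ((hs.prod : ℝ) * (hs.length.factorial : ℝ)
            / (ξ + hs.sum) ^ (1 + hs.length)) := by
            rw [add_comm 1 hs.length]; ring
        _ ≤ _ := by gcongr
    · have hle : x ^ (hs.length + 1) ≤ ξ ^ (hs.length + 1) := by
        apply pow_le_pow_left₀ hx.le hξ.1.le
      calc (h : ℝ) * ((-1) ^ hs.length * D hs (phi 1) ξ)
          ≤ (h : ℝ) * ((hs.prod : ℝ) * (hs.length.factorial : ℝ) / ξ ^ (1 + hs.length)) := by
            gcongr
        _ = (h : ℝ) * (hs.prod : ℝ) * (hs.length.factorial : ℝ) / ξ ^ (hs.length + 1) := by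
            rw [add_comm 1 hs.length]; ring
        _ ≤ _ := by
            apply div_le_div_of_nonneg_left (by positivity) (by positivity) hle

theorem DL_sign_pos (h : ℕ) (hs : List ℕ) {x : ℝ} (hx : 0 < x) :
    0 ≤ (-1) ^ hs.length * D (h :: hs) Real.log x :=
  le_trans (by positivity) (DL_bounds h hs hx).1

/-- Kusmin–Landau applied to iterated differences of `G log (x + θ)`. -/
theorem kl_DL (M : ℕ) (G θ : ℝ) (hG : G ≠ 0) (hθ0 : 0 ≤ θ) (hθ1 : θ ≤ 1) (hM : 1 ≤ M)
    (ls : List ℕ) (hls : ∀ h ∈ ls, 1 ≤ h) (a b : ℕ) (ha : M ≤ a) (hb : b ≤ 4 * M)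
    (hup : |G| * ls.prod * (ls.length.factorial) / (M : ℝ) ^ (ls.length + 1) ≤ 1 / 2) :
    ‖∑ n ∈ Ioc a b, e (G * D ls Real.log ((n : ℝ) + θ))‖ ≤
      (4 * (M : ℝ) + 2 + ls.sum) ^ (ls.length + 1)
        / (|G| * ls.prod * (ls.length.factorial)) := by
  have hGpos : 0 < |G| := abs_pos.2 hG
  have hprod : (0 : ℝ) < (ls.prod : ℝ) := by
    have : 0 < ls.prod := List.prod_pos (fun h hh => hls h hh)
    exact_mod_cast this
  have hasc : (0 : ℝ) < (ls.length.factorial : ℝ) := by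
    exact_mod_cast Nat.factorial_pos _
  have hMpos : (0 : ℝ) < M := by exact_mod_cast hM
  set g : ℕ → ℝ := fun n => |G| * ((-1) ^ ls.length * D ls Real.log ((n : ℝ) + θ)) with hg
  have hS : ‖∑ n ∈ Ioc a b, e (G * D ls Real.log ((n : ℝ) + θ))‖ = ‖∑ n ∈ Ioc a b, e (g n)‖ := by
    have hcase : (∀ n : ℕ, G * D ls Real.log ((n : ℝ) + θ) = g n) ∨
        (∀ n : ℕ, G * D ls Real.log ((n : ℝ) + θ) = -(g n)) := by
      rcases abs_choice G with h | h <;>
        rcases Nat.even_or_odd ls.length with h' | h'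
      · left; intro n; simp only [hg]; rw [h, h'.neg_one_pow]; ring
      · right; intro n; simp only [hg]; rw [h, h'.neg_one_pow]; ring
      · right; intro n; simp only [hg]; rw [h, h'.neg_one_pow]; ring
      · left; intro n; simp only [hg]; rw [h, h'.neg_one_pow]; ring
    rcases hcase with h | h
    · congr 1
      apply sum_congr rfl
      intro n _
      rw [h]
    · rw [← norm_sum_e_neg g]
      congr 1
      apply sum_congr rfl
      intro n _
      rw [h]
  rw [hS]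
  set ϑ : ℝ := |G| * ls.prod * (ls.length.factorial)
    / (4 * (M : ℝ) + 2 + ls.sum) ^ (ls.length + 1) with hϑ
  have hϑpos : 0 < ϑ := by rw [hϑ]; positivity
  have hres := kusmin_landau g a b ϑ hϑpos ?_ ?_ ?_
  · calc _ ≤ 1 / ϑ := hres
      _ = _ := by rw [hϑ, one_div_div]
  · intro n hn hnb
    have hnpos : (0 : ℝ) < (n : ℝ) + θ := by
      have : 0 < n := by omega
      have : (0 : ℝ) < n := by exact_mod_cast this
      linarith
    have e1 : g (n + 1) - g n = |G| * ((-1) ^ ls.length * D (1 :: ls) Real.log ((n : ℝ) + θ)) := by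
      simp only [hg, D]
      push_cast
      rw [show (n : ℝ) + θ + 1 = (n : ℝ) + 1 + θ by ring]
      ring
    rw [e1]
    have h1 := (DL_bounds 1 ls hnpos).1
    rw [List.prod_cons, List.sum_cons, one_mul, Nat.cast_add, Nat.cast_one] at h1
    calc ϑ = |G| * ((ls.prod : ℝ) * (ls.length.factorial)
            / (4 * (M : ℝ) + 2 + ls.sum) ^ (ls.length + 1)) := by rw [hϑ]; ring
      _ ≤ |G| * ((ls.prod : ℝ) * (ls.length.factorial)
            / ((n : ℝ) + θ + (1 + ls.sum)) ^ (ls.length + 1)) := by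
          apply mul_le_mul_of_nonneg_left _ (abs_nonneg _)
          apply div_le_div_of_nonneg_left (by positivity) (by positivity)
          apply pow_le_pow_left₀ (by positivity)
          have : (n : ℝ) ≤ 4 * M := by
            have : n ≤ 4 * M := by omega
            exact_mod_cast this
          linarith
      _ ≤ _ := by gcongr
  · intro n hn hnb
    have hn1 : (1 : ℝ) ≤ n := by
      have : 1 ≤ n := by omega
      exact_mod_cast this
    have hnpos : (0 : ℝ) < (n : ℝ) + θ := by linarith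
    have e1 : g (n + 1) - g n = |G| * ((-1) ^ ls.length * D (1 :: ls) Real.log ((n : ℝ) + θ)) := by
      simp only [hg, D]
      push_cast
      rw [show (n : ℝ) + θ + 1 = (n : ℝ) + 1 + θ by ring]
      ring
    rw [e1]
    have h1 := (DL_bounds 1 ls hnpos).2
    rw [List.prod_cons, one_mul] at h1
    have hMn : (M : ℝ) ≤ (n : ℝ) + θ := by
      have : M ≤ n := by omega
      have : (M : ℝ) ≤ n := by exact_mod_cast this
      linarith
    calc _ ≤ |G| * ((ls.prod : ℝ) * (ls.length.factorial)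
            / ((n : ℝ) + θ) ^ (ls.length + 1)) := by gcongr
      _ ≤ |G| * ((ls.prod : ℝ) * (ls.length.factorial)
            / (M : ℝ) ^ (ls.length + 1)) := by
          gcongr
      _ = |G| * ls.prod * (ls.length.factorial) / (M : ℝ) ^ (ls.length + 1) := by
          ring
      _ ≤ 1 / 2 := hup
  · intro n hn hnb
    have hnpos : (0 : ℝ) < (n : ℝ) + θ := by
      have : 0 < n := by omega
      have : (0 : ℝ) < n := by exact_mod_cast this
      linarith
    have e1 : g (n + 2) - g (n + 1) - (g (n + 1) - g n)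
        = -(|G| * ((-1) ^ (1 :: ls).length * D (1 :: 1 :: ls) Real.log ((n : ℝ) + θ))) := by
      simp only [hg, D, List.length_cons]
      push_cast
      have e2 : (n : ℝ) + θ + 1 + 1 = (n : ℝ) + 2 + θ := by ring
      have e3 : (n : ℝ) + θ + 1 = (n : ℝ) + 1 + θ := by ring
      rw [e2, e3]
      ring
    have h1 := DL_sign_pos 1 (1 :: ls) hnpos
    have h2 : 0 ≤ |G| * ((-1) ^ (1 :: ls).length * D (1 :: 1 :: ls) Real.log ((n : ℝ) + θ)) := by
      positivity
    linarith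

/-- one Weyl–van der Corput step for iterated differences -/
theorem vdc_DL (M : ℕ) (G θ : ℝ) (hs : List ℕ) (a b H : ℕ) (hH : 0 < H) (hHa : H ≤ a + 1)
    (hM : 1 ≤ M) (hb : b ≤ 4 * M) :
    (H : ℝ) * ‖∑ n ∈ Ioc a b, e (G * D hs Real.log ((n : ℝ) + θ))‖ ^ 2 ≤
      (5 * M) * (5 * M + 2 * ∑ d ∈ Ico 1 H,
        ‖∑ n ∈ Ioc a (b - d), e (G * D (d :: hs) Real.log ((n : ℝ) + θ))‖) := by
  have h := vdc_Ioc (fun n => G * D hs Real.log ((n : ℝ) + θ)) a b H hH hHa
  have e1 : ∀ d ∈ Ico 1 H, ‖∑ n ∈ Ioc a (b - d),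
      e ((fun n : ℕ => G * D hs Real.log ((n : ℝ) + θ)) (n + d)
        - (fun n : ℕ => G * D hs Real.log ((n : ℝ) + θ)) n)‖
      = ‖∑ n ∈ Ioc a (b - d), e (G * D (d :: hs) Real.log ((n : ℝ) + θ))‖ := by
    intro d _
    congr 1
    apply sum_congr rfl
    intro n _
    congr 1
    simp only [D]
    push_cast
    rw [show (n : ℝ) + θ + d = (n : ℝ) + d + θ by ring]
    ring
  rw [sum_congr rfl e1] at h
  have hbM : (b : ℝ) + 1 ≤ 5 * M := by
    have : b + 1 ≤ 5 * M := by omega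
    exact_mod_cast this
  refine h.trans ?_
  gcongr

/-- second-derivative-test level -/
theorem base_levelL (r : ℕ) (hr : 2 ≤ r) : ∃ C : ℝ, 0 < C ∧
    ∀ (M : ℕ) (G θ : ℝ), 1 ≤ M → 0 ≤ θ → θ ≤ 1 → (M : ℝ) ^ ((r : ℝ) - 5 / 4) ≤ |G| →
    |G| ≤ (M : ℝ) ^ ((r : ℝ) - 1 / 4) →
    ∀ hs : List ℕ, hs.length = r - 2 →
    (∀ h ∈ hs, 1 ≤ h ∧ (h : ℝ) ≤ (M : ℝ) ^ (1 / (8 * (r : ℝ)))) →
    ∀ a b : ℕ, M ≤ a → b ≤ 4 * M →
    ‖∑ n ∈ Ioc a b, e (G * D hs Real.log ((n : ℝ) + θ))‖ ≤ C * (M : ℝ) ^ (15 / 16 : ℝ) := by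
  set A : ℝ := ((r - 1).factorial : ℝ) with hA
  set κ : ℝ := ((5 : ℝ) + r) ^ r with hκ
  have hA1 : 1 ≤ A := by
    rw [hA]; exact_mod_cast Nat.factorial_pos _
  have hκ1 : 0 < κ := by rw [hκ]; positivity
  refine ⟨8 * A + (25 + 90 * κ + 100 * A + 360 * κ), by positivity, ?_⟩
  intro M G θ hM hθ0 hθ1 hX1 hX2 hs hlen hhs a b ha hb
  set N : ℝ := (M : ℝ) with hN
  have hN1 : 1 ≤ N := by rw [hN]; exact_mod_cast hM
  have hNpos : 0 < N := by linarith
  have hrR : (2 : ℝ) ≤ r := by exact_mod_cast hr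
  have hGne : G ≠ 0 := by
    rintro rfl
    rw [abs_zero] at hX1
    have : 0 < N ^ ((r : ℝ) - 5 / 4) := Real.rpow_pos_of_pos hNpos _
    linarith
  have hGpos : 0 < |G| := abs_pos.2 hGne
  have hPi1 : (1 : ℝ) ≤ hs.prod := by
    have : 0 < hs.prod := List.prod_pos (fun h hh => (hhs h hh).1)
    exact_mod_cast this
  have hη1 : N ^ (1 / (8 * (r : ℝ))) ≤ N := by
    calc N ^ (1 / (8 * (r : ℝ))) ≤ N ^ (1 : ℝ) := by
          apply Real.rpow_le_rpow_of_exponent_le hN1
          rw [div_le_one (by positivity)]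
          linarith
      _ = N := Real.rpow_one N
  have hPi2 : (hs.prod : ℝ) ≤ N ^ (1 / 8 : ℝ) := by
    calc (hs.prod : ℝ) ≤ (N ^ (1 / (8 * (r : ℝ)))) ^ hs.length :=
          list_prod_le hs _ (by positivity) (fun x hx => (hhs x hx).2)
      _ = N ^ ((1 / (8 * (r : ℝ))) * hs.length) := by
          rw [Real.rpow_mul hNpos.le, Real.rpow_natCast]
      _ ≤ N ^ (1 / 8 : ℝ) := by
          apply Real.rpow_le_rpow_of_exponent_le hN1
          have : (hs.length : ℝ) ≤ r := by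
            rw [hlen]
            exact_mod_cast Nat.sub_le r 2
          calc (1 / (8 * (r : ℝ))) * hs.length ≤ (1 / (8 * (r : ℝ))) * r := by gcongr
            _ = 1 / 8 := by field_simp
  have hsum : (hs.sum : ℝ) ≤ ((r : ℝ) - 2) * N := by
    have := list_sum_le hs N (fun x hx => ((hhs x hx).2).trans hη1)
    rw [hlen, Nat.cast_sub hr] at this
    exact_mod_cast this
  set lam : ℝ := |G| * hs.prod * A / N ^ r with hlam
  have hlampos : 0 < lam := by rw [hlam]; positivity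
  have hlameq : lam = |G| * (hs.prod * A / N ^ r) := by
    rw [hlam]; ring
  have hlam1 : N ^ (-(5 / 4 : ℝ)) ≤ lam := by
    have e1 : N ^ (-(5 / 4 : ℝ)) = N ^ ((r : ℝ) - 5 / 4) * (1 / N ^ r) := by
      rw [show ((r : ℝ) - 5 / 4) = (r : ℝ) + (-(5 / 4)) by ring, Real.rpow_add hNpos,
        Real.rpow_natCast]
      field_simp
    rw [e1, hlameq]
    gcongr
    nlinarith
  have hlam2 : lam ≤ A * N ^ (-(1 / 8 : ℝ)) := by
    have e1 : A * N ^ (-(1 / 8 : ℝ)) = N ^ ((r : ℝ) - 1 / 4) * (N ^ (1 / 8 : ℝ) * A / N ^ r) := by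
      have e2 : N ^ ((r : ℝ) - 1 / 4) * N ^ (1 / 8 : ℝ) = N ^ r * N ^ (-(1 / 8 : ℝ)) := by
        rw [← Real.rpow_add hNpos, ← Real.rpow_natCast N r, ← Real.rpow_add hNpos]
        congr 1; ring
      calc A * N ^ (-(1 / 8 : ℝ)) = (N ^ r * N ^ (-(1 / 8 : ℝ))) * A / N ^ r := by field_simp
        _ = (N ^ ((r : ℝ) - 1 / 4) * N ^ (1 / 8 : ℝ)) * A / N ^ r := by rw [e2]
        _ = _ := by ring
    rw [e1, hlameq]
    gcongr
  have htriv : ‖∑ n ∈ Ioc a b, e (G * D hs Real.log ((n : ℝ) + θ))‖ ≤ 4 * N := by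
    calc _ ≤ ∑ n ∈ Ioc a b, ‖e (G * D hs Real.log ((n : ℝ) + θ))‖ := norm_sum_le _ _
      _ = (#(Ioc a b) : ℝ) := by simp [norm_e]
      _ ≤ 4 * N := by
          rw [Nat.card_Ioc]
          have : b - a ≤ 4 * M := by omega
          rw [hN]
          exact_mod_cast this
  by_cases hcase : 1 < 2 * (A * N ^ (-(1 / 8 : ℝ)))
  · -- small M: trivial bound
    have h1 : N ^ (1 / 16 : ℝ) ≤ 2 * A := by
      have h2 : N ^ (1 / 8 : ℝ) ≤ 2 * A := by
        have e1 : N ^ (-(1 / 8 : ℝ)) * N ^ (1 / 8 : ℝ) = 1 := by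
          rw [← Real.rpow_add hNpos]; norm_num
        have : 0 < N ^ (1 / 8 : ℝ) := Real.rpow_pos_of_pos hNpos _
        nlinarith
      calc N ^ (1 / 16 : ℝ) ≤ N ^ (1 / 8 : ℝ) :=
            Real.rpow_le_rpow_of_exponent_le hN1 (by norm_num)
        _ ≤ 2 * A := h2
    have e1 : N = N ^ (1 / 16 : ℝ) * N ^ (15 / 16 : ℝ) := by
      rw [← Real.rpow_add hNpos]; norm_num
    have h3 : 0 < N ^ (15 / 16 : ℝ) := Real.rpow_pos_of_pos hNpos _
    calc _ ≤ 4 * N := htriv
      _ = 4 * (N ^ (1 / 16 : ℝ) * N ^ (15 / 16 : ℝ)) := by rw [← e1]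
      _ ≤ 4 * ((2 * A) * N ^ (15 / 16 : ℝ)) := by gcongr
      _ = (8 * A) * N ^ (15 / 16 : ℝ) := by ring
      _ ≤ _ := by
        gcongr
        have : 0 ≤ 25 + 90 * κ + 100 * A + 360 * κ := by positivity
        linarith
  · push Not at hcase
    have hlamhalf : lam ≤ 1 / 2 := by linarith
    set H : ℕ := min M ⌊1 / (2 * lam)⌋₊ with hH
    have hfl : 1 ≤ ⌊1 / (2 * lam)⌋₊ := by
      apply Nat.le_floor
      rw [Nat.cast_one, le_div_iff₀ (by positivity)]
      linarith
    have hH1 : 1 ≤ H := le_min hM hfl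
    have hHM : H ≤ M := min_le_left _ _
    have hHlam : (H : ℝ) * lam ≤ 1 / 2 := by
      have h1 : (H : ℝ) ≤ 1 / (2 * lam) := by
        calc (H : ℝ) ≤ (⌊1 / (2 * lam)⌋₊ : ℝ) := by exact_mod_cast min_le_right _ _
          _ ≤ 1 / (2 * lam) := Nat.floor_le (by positivity)
      rw [le_div_iff₀ (by positivity)] at h1
      linarith
    have hHinv : 1 ≤ (H : ℝ) * (1 / N + 4 * lam) := by
      rcases min_choice M ⌊1 / (2 * lam)⌋₊ with h | h
      · rw [hH, h, ← hN]
        have : N * (1 / N + 4 * lam) = 1 + 4 * N * lam := by field_simp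
        rw [this]
        have : 0 ≤ 4 * N * lam := by positivity
        linarith
      · have h2 : 1 / (2 * lam) < ⌊1 / (2 * lam)⌋₊ + 1 := Nat.lt_floor_add_one _
        have h3 : (1 : ℝ) ≤ ⌊1 / (2 * lam)⌋₊ := by exact_mod_cast hfl
        rw [← h, ← hH] at h2 h3
        have h4 : 1 / (2 * lam) ≤ 2 * (H : ℝ) := by linarith
        rw [div_le_iff₀ (by positivity)] at h4
        have h5 : 0 ≤ (H : ℝ) * (1 / N) := by positivity
        nlinarith
    have hstep := vdc_DL M G θ hs a b H hH1 (by omega) hM hb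
    have hinner : ∀ d ∈ Ico 1 H, ‖∑ n ∈ Ioc a (b - d), e (G * D (d :: hs) Real.log ((n : ℝ) + θ))‖
        ≤ (κ / lam) * (1 / d) := by
      intro d hd
      rw [mem_Ico] at hd
      have hdpos : (0 : ℝ) < d := by
        have : 0 < d := by omega
        exact_mod_cast this
      have hlen' : (d :: hs).length + 1 = r := by
        rw [List.length_cons, hlen]; omega
      have hlen'' : (d :: hs).length = r - 1 := by omega
      have hkl := kl_DL M G θ hGne hθ0 hθ1 hM (d :: hs) (by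
        intro h hh
        rcases List.mem_cons.1 hh with h1 | h1
        · rw [h1]; exact hd.1
        · exact (hhs h h1).1) a (b - d) ha (by omega)
      rw [hlen', List.prod_cons, List.sum_cons, Nat.cast_mul, Nat.cast_add, hlen''] at hkl
      have hup : |G| * ((d : ℝ) * hs.prod) * ((r - 1).factorial : ℝ) / (M : ℝ) ^ r ≤ 1 / 2 := by
        have : |G| * ((d : ℝ) * hs.prod) * ((r - 1).factorial : ℝ) / (M : ℝ) ^ r = d * lam := by
          rw [hlam, hA, hN]; ring
        rw [this]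
        have hdH : (d : ℝ) ≤ H := by exact_mod_cast hd.2.le
        nlinarith
      refine (hkl hup).trans ?_
      have hbase : 4 * (M : ℝ) + 2 + ((d : ℝ) + hs.sum) ≤ (5 + r) * N := by
        have hdM : (d : ℝ) ≤ N := by
          rw [hN]
          have : d ≤ M := by omega
          exact_mod_cast this
        rw [← hN]
        have e5 : ((r : ℝ) - 2) * N = r * N - 2 * N := by ring
        have e6 : ((5 : ℝ) + r) * N = 5 * N + r * N := by ring
        linarith
      calc (4 * (M : ℝ) + 2 + ((d : ℝ) + hs.sum)) ^ r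
            / (|G| * ((d : ℝ) * hs.prod) * ((r - 1).factorial : ℝ))
          ≤ ((5 + r) * N) ^ r / (|G| * ((d : ℝ) * hs.prod) * ((r - 1).factorial : ℝ)) := by
            gcongr
        _ = (κ / lam) * (1 / d) := by
            rw [hκ, hlam, ← hA, mul_pow]
            field_simp
    have hsumd : ∑ d ∈ Ico 1 H, ‖∑ n ∈ Ioc a (b - d), e (G * D (d :: hs) Real.log ((n : ℝ) + θ))‖
        ≤ (κ / lam) * (9 * N ^ (1 / 8 : ℝ)) := by
      calc _ ≤ ∑ d ∈ Ico 1 H, (κ / lam) * (1 / d) := sum_le_sum hinner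
        _ = (κ / lam) * ∑ d ∈ Ico 1 H, (1 : ℝ) / d := by rw [mul_sum]
        _ ≤ (κ / lam) * (1 + Real.log M) := by
            gcongr
            exact sum_inv_le H M (by omega)
        _ ≤ (κ / lam) * (9 * N ^ (1 / 8 : ℝ)) := by
            gcongr
            have h1 := Real.log_le_rpow_div hNpos.le (show (0 : ℝ) < 1 / 8 by norm_num)
            have h2 : 1 ≤ N ^ (1 / 8 : ℝ) := Real.one_le_rpow hN1 (by norm_num)
            rw [← hN]
            have h3 : N ^ (1 / 8 : ℝ) / (1 / 8) = 8 * N ^ (1 / 8 : ℝ) := by ring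
            linarith
    set Sn := ‖∑ n ∈ Ioc a b, e (G * D hs Real.log ((n : ℝ) + θ))‖ with hSn
    have h1 : (H : ℝ) * Sn ^ 2 ≤ (5 * N) * (5 * N + 2 * ((κ / lam) * (9 * N ^ (1 / 8 : ℝ)))) := by
      refine hstep.trans ?_
      rw [← hN]
      gcongr
    have h2 : Sn ^ 2 ≤ (1 / N + 4 * lam) *
        ((5 * N) * (5 * N + 2 * ((κ / lam) * (9 * N ^ (1 / 8 : ℝ))))) := by
      calc Sn ^ 2 = 1 * Sn ^ 2 := by ring
        _ ≤ ((H : ℝ) * (1 / N + 4 * lam)) * Sn ^ 2 := by gcongr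
        _ = (1 / N + 4 * lam) * ((H : ℝ) * Sn ^ 2) := by ring
        _ ≤ _ := by gcongr
    have h3 : (1 / N + 4 * lam) * ((5 * N) * (5 * N + 2 * ((κ / lam) * (9 * N ^ (1 / 8 : ℝ)))))
        = 25 * N + 90 * κ * (N ^ (1 / 8 : ℝ) / lam) + 100 * (lam * N ^ 2)
          + 360 * κ * (N ^ (1 / 8 : ℝ) * N) := by
      field_simp
      ring
    have t1 : N ≤ N ^ (15 / 8 : ℝ) := by
      calc N = N ^ (1 : ℝ) := (Real.rpow_one N).symm
        _ ≤ _ := Real.rpow_le_rpow_of_exponent_le hN1 (by norm_num)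
    have t2 : N ^ (1 / 8 : ℝ) / lam ≤ N ^ (15 / 8 : ℝ) := by
      rw [div_le_iff₀ hlampos]
      calc N ^ (1 / 8 : ℝ) ≤ N ^ (15 / 8 - 5 / 4 : ℝ) :=
            Real.rpow_le_rpow_of_exponent_le hN1 (by norm_num)
        _ = N ^ (15 / 8 : ℝ) * N ^ (-(5 / 4 : ℝ)) := by
            rw [← Real.rpow_add hNpos]; norm_num
        _ ≤ N ^ (15 / 8 : ℝ) * lam := by gcongr
    have t3 : lam * N ^ 2 ≤ A * N ^ (15 / 8 : ℝ) := by
      calc lam * N ^ 2 ≤ (A * N ^ (-(1 / 8 : ℝ))) * N ^ 2 := by gcongr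
        _ = A * (N ^ (-(1 / 8 : ℝ)) * N ^ (2 : ℝ)) := by
            rw [mul_assoc]
            norm_cast
        _ = A * N ^ (15 / 8 : ℝ) := by
            rw [← Real.rpow_add hNpos]; norm_num
    have t4 : N ^ (1 / 8 : ℝ) * N ≤ N ^ (15 / 8 : ℝ) := by
      calc N ^ (1 / 8 : ℝ) * N = N ^ (1 / 8 + 1 : ℝ) := by
            rw [Real.rpow_add hNpos, Real.rpow_one]
        _ ≤ _ := Real.rpow_le_rpow_of_exponent_le hN1 (by norm_num)
    set K : ℝ := 25 + 90 * κ + 100 * A + 360 * κ with hK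
    have hK1 : 1 ≤ K := by
      have : 0 < 90 * κ := by positivity
      rw [hK]
      linarith
    have h4 : Sn ^ 2 ≤ K * N ^ (15 / 8 : ℝ) := by
      rw [h3] at h2
      have u2 : 90 * κ * (N ^ (1 / 8 : ℝ) / lam) ≤ 90 * κ * N ^ (15 / 8 : ℝ) := by gcongr
      have u3 : 100 * (lam * N ^ 2) ≤ 100 * (A * N ^ (15 / 8 : ℝ)) := by gcongr
      have u4 : 360 * κ * (N ^ (1 / 8 : ℝ) * N) ≤ 360 * κ * N ^ (15 / 8 : ℝ) := by gcongr
      rw [hK]
      linarith
    have h5 : Sn ≤ K * N ^ (15 / 16 : ℝ) := by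
      apply abs_le_of_sq_le_sq' _ (by positivity) |>.2
      calc Sn ^ 2 ≤ K * N ^ (15 / 8 : ℝ) := h4
        _ ≤ K ^ 2 * N ^ (15 / 8 : ℝ) := by
            gcongr
            nlinarith
        _ = (K * N ^ (15 / 16 : ℝ)) ^ 2 := by
            rw [mul_pow, ← Real.rpow_natCast (N ^ (15 / 16 : ℝ)) 2, ← Real.rpow_mul hNpos.le]
            norm_num
    refine h5.trans ?_
    gcongr
    linarith

end Pool.Agent.H24.MR
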