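import Mathlib
import Pool.Agent.H24.MR.LogVdc

set_option autoImplicit false

namespace Pool.Agent.H24.MR

open Finset Pool.Agent.H24.Sqf

theorem levelL (r : ℕ) (hr : 2 ≤ r) : ∀ i : ℕ, i ≤ r - 2 → ∃ C τ : ℝ, 0 < C ∧ 0 < τ ∧
    τ ≤ 1 / (8 * (r : ℝ)) ∧
    ∀ (M : ℕ) (G θ : ℝ), 1 ≤ M → 0 ≤ θ → θ ≤ 1 → (M : ℝ) ^ ((r : ℝ) - 5 / 4) ≤ |G| →
    |G| ≤ (M : ℝ) ^ ((r : ℝ) - 1 / 4) →
    ∀ hs : List ℕ, hs.length = r - 2 - i →
    (∀ h ∈ hs, 1 ≤ h ∧ (h : ℝ) ≤ (M : ℝ) ^ (1 / (8 * (r : ℝ)))) →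
    ∀ a b : ℕ, M ≤ a → b ≤ 4 * M →
    ‖∑ n ∈ Ioc a b, e (G * D hs Real.log ((n : ℝ) + θ))‖ ≤ C * (M : ℝ) ^ (1 - τ) := by
  have hrR : (2 : ℝ) ≤ r := by exact_mod_cast hr
  set η : ℝ := 1 / (8 * (r : ℝ)) with hη
  have hηpos : 0 < η := by rw [hη]; positivity
  have hη16 : η ≤ 1 / 16 := by
    rw [hη]
    apply one_div_le_one_div_of_le (by norm_num)
    linarith
  intro i
  induction i with
  | zero =>
    intro _
    obtain ⟨C, hC, h⟩ := base_levelL r hr
    refine ⟨C, η, hC, hηpos, le_rfl, ?_⟩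
    intro M G θ hM hθ0 hθ1 hX1 hX2 hs hlen hhs a b ha hb
    refine (h M G θ hM hθ0 hθ1 hX1 hX2 hs hlen hhs a b ha hb).trans ?_
    have hN1 : (1 : ℝ) ≤ M := by exact_mod_cast hM
    gcongr
    linarith
  | succ i ih =>
    intro hi
    obtain ⟨C, τ, hC, hτ, hτη, h⟩ := ih (by omega)
    refine ⟨50 + 10 * C, τ / 2, by positivity, by positivity, by linarith, ?_⟩
    intro M G θ hM hθ0 hθ1 hX1 hX2 hs hlen hhs a b ha hb
    set N : ℝ := (M : ℝ) with hN
    have hN1 : 1 ≤ N := by rw [hN]; exact_mod_cast hM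
    have hNpos : 0 < N := by linarith
    have hNη1 : 1 ≤ N ^ η := Real.one_le_rpow hN1 hηpos.le
    have hNηN : N ^ η ≤ N := by
      calc N ^ η ≤ N ^ (1 : ℝ) := Real.rpow_le_rpow_of_exponent_le hN1 (by linarith)
        _ = N := Real.rpow_one N
    set H : ℕ := ⌊N ^ η⌋₊ with hH
    have hH1 : 1 ≤ H := by
      apply Nat.le_floor
      rw [Nat.cast_one]; exact hNη1
    have hHle : (H : ℝ) ≤ N ^ η := Nat.floor_le (by positivity)
    have hHM : H ≤ M := by
      have : (H : ℝ) ≤ M := hHle.trans hNηN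
      exact_mod_cast this
    have hHge : N ^ η ≤ 2 * H := by
      have h2 : N ^ η < ⌊N ^ η⌋₊ + 1 := Nat.lt_floor_add_one _
      rw [← hH] at h2
      have h3 : (1 : ℝ) ≤ H := by exact_mod_cast hH1
      linarith
    have hstep := vdc_DL M G θ hs a b H hH1 (by omega) hM hb
    have hinner : ∀ d ∈ Ico 1 H, ‖∑ n ∈ Ioc a (b - d), e (G * D (d :: hs) Real.log ((n : ℝ) + θ))‖
        ≤ C * N ^ (1 - τ) := by
      intro d hd
      rw [mem_Ico] at hd
      apply h M G θ hM hθ0 hθ1 hX1 hX2 (d :: hs)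
      · rw [List.length_cons, hlen]; omega
      · intro h' hh
        rcases List.mem_cons.1 hh with h1 | h1
        · rw [h1]
          refine ⟨hd.1, ?_⟩
          have : (d : ℝ) ≤ H := by exact_mod_cast hd.2.le
          exact this.trans hHle
        · exact hhs h' h1
      · exact ha
      · omega
    set Sn := ‖∑ n ∈ Ioc a b, e (G * D hs Real.log ((n : ℝ) + θ))‖ with hSn
    have hHpos : (0 : ℝ) < H := by exact_mod_cast hH1
    have h1 : (H : ℝ) * Sn ^ 2 ≤ (5 * N) * (5 * N + 2 * (H * (C * N ^ (1 - τ)))) := by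
      refine hstep.trans ?_
      rw [← hN]
      gcongr
      calc _ ≤ ∑ d ∈ Ico 1 H, C * N ^ (1 - τ) := sum_le_sum hinner
        _ = (#(Ico 1 H) : ℝ) * (C * N ^ (1 - τ)) := by rw [sum_const, nsmul_eq_mul]
        _ ≤ H * (C * N ^ (1 - τ)) := by
          gcongr
          rw [Nat.card_Ico]
          omega
    have hNτ : 0 < N ^ (1 - τ) := Real.rpow_pos_of_pos hNpos _
    have h2 : (H : ℝ) * Sn ^ 2 ≤ H * ((50 + 10 * C) * N ^ (2 - τ)) := by
      have e1 : N * N ^ (1 - τ) = N ^ (2 - τ) := by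
        nth_rewrite 1 [← Real.rpow_one N]
        rw [← Real.rpow_add hNpos]
        congr 1; ring
      have e2 : N ^ 2 ≤ 2 * H * N ^ (2 - τ) := by
        have e3 : N ^ 2 = N ^ τ * N ^ (2 - τ) := by
          rw [← Real.rpow_add hNpos, ← Real.rpow_natCast N 2]
          congr 1; push_cast; ring
        have e4 : N ^ τ ≤ N ^ η := Real.rpow_le_rpow_of_exponent_le hN1 hτη
        have e5 : 0 < N ^ (2 - τ) := Real.rpow_pos_of_pos hNpos _
        rw [e3]
        gcongr
        linarith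
      calc (H : ℝ) * Sn ^ 2 ≤ (5 * N) * (5 * N + 2 * (H * (C * N ^ (1 - τ)))) := h1
        _ = 25 * N ^ 2 + 10 * H * C * (N * N ^ (1 - τ)) := by ring
        _ = 25 * N ^ 2 + 10 * H * C * N ^ (2 - τ) := by rw [e1]
        _ ≤ 25 * (2 * H * N ^ (2 - τ)) + 10 * H * C * N ^ (2 - τ) := by gcongr
        _ = H * ((50 + 10 * C) * N ^ (2 - τ)) := by ring
    have h3 : Sn ^ 2 ≤ (50 + 10 * C) * N ^ (2 - τ) := le_of_mul_le_mul_left h2 hHpos
    apply abs_le_of_sq_le_sq' _ (by positivity) |>.2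
    calc Sn ^ 2 ≤ (50 + 10 * C) * N ^ (2 - τ) := h3
      _ ≤ (50 + 10 * C) ^ 2 * N ^ (2 - τ) := by
          have : 0 < N ^ (2 - τ) := Real.rpow_pos_of_pos hNpos _
          gcongr
          nlinarith
      _ = ((50 + 10 * C) * N ^ (1 - τ / 2)) ^ 2 := by
          rw [mul_pow, ← Real.rpow_natCast (N ^ (1 - τ / 2)) 2, ← Real.rpow_mul hNpos.le]
          congr 2
          push_cast
          ring

theorem deriv_testL (r : ℕ) (hr : 2 ≤ r) : ∃ C τ : ℝ, 0 < C ∧ 0 < τ ∧ τ ≤ 1 / 16 ∧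
    ∀ (M : ℕ) (G θ : ℝ), 1 ≤ M → 0 ≤ θ → θ ≤ 1 → (M : ℝ) ^ ((r : ℝ) - 5 / 4) ≤ |G| →
    |G| ≤ (M : ℝ) ^ ((r : ℝ) - 1 / 4) →
    ∀ a b : ℕ, M ≤ a → b ≤ 4 * M →
    ‖∑ n ∈ Ioc a b, e (G * Real.log ((n : ℝ) + θ))‖ ≤ C * (M : ℝ) ^ (1 - τ) := by
  obtain ⟨C, τ, hC, hτ, hτr, h⟩ := levelL r hr (r - 2) le_rfl
  have hrR : (2 : ℝ) ≤ r := by exact_mod_cast hr
  refine ⟨C, τ, hC, hτ, ?_, ?_⟩
  · refine hτr.trans ?_
    apply one_div_le_one_div_of_le (by norm_num)
    linarith
  · intro M G θ hM hθ0 hθ1 hX1 hX2 a b ha hb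
    have := h M G θ hM hθ0 hθ1 hX1 hX2 [] (by simp) (by simp) a b ha hb
    simpa [D] using this

theorem deriv_testsL (B : ℕ) : ∃ C τ : ℝ, 0 < C ∧ 0 < τ ∧ τ ≤ 1 / 16 ∧
    ∀ r : ℕ, 2 ≤ r → r ≤ B + 2 →
    ∀ (M : ℕ) (G θ : ℝ), 1 ≤ M → 0 ≤ θ → θ ≤ 1 → (M : ℝ) ^ ((r : ℝ) - 5 / 4) ≤ |G| →
    |G| ≤ (M : ℝ) ^ ((r : ℝ) - 1 / 4) →
    ∀ a b : ℕ, M ≤ a → b ≤ 4 * M →
    ‖∑ n ∈ Ioc a b, e (G * Real.log ((n : ℝ) + θ))‖ ≤ C * (M : ℝ) ^ (1 - τ) := by
  induction B with
  | zero =>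
    obtain ⟨C, τ, hC, hτ, hτ1, h⟩ := deriv_testL 2 le_rfl
    refine ⟨C, τ, hC, hτ, hτ1, ?_⟩
    intro r hr1 hr2
    have : r = 2 := by omega
    subst this
    exact h
  | succ B ih =>
    obtain ⟨C1, τ1, hC1, hτ1, hτ11, h1⟩ := ih
    obtain ⟨C2, τ2, hC2, hτ2, hτ21, h2⟩ := deriv_testL (B + 3) (by omega)
    refine ⟨max C1 C2, min τ1 τ2, by positivity, by positivity, (min_le_left _ _).trans hτ11, ?_⟩
    intro r hr1 hr2 M G θ hM hθ0 hθ1 hX1 hX2 a b ha hb
    have hN1 : (1 : ℝ) ≤ M := by exact_mod_cast hM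
    by_cases hr : r ≤ B + 2
    · refine (h1 r hr1 hr M G θ hM hθ0 hθ1 hX1 hX2 a b ha hb).trans ?_
      gcongr
      · exact le_max_left _ _
      · exact min_le_left _ _
    · have : r = B + 3 := by omega
      subst this
      refine (h2 M G θ hM hθ0 hθ1 hX1 hX2 a b ha hb).trans ?_
      gcongr
      · exact le_max_right _ _
      · exact min_le_right _ _

/-- first derivative test: `√M ≤ |G| ≤ M/2`. -/
theorem firstL (M : ℕ) (G θ : ℝ) (hM : 1 ≤ M) (hθ0 : 0 ≤ θ) (hθ1 : θ ≤ 1)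
    (hG1 : Real.sqrt M ≤ |G|) (hG2 : |G| ≤ M / 2) (a b : ℕ) (ha : M ≤ a) (hb : b ≤ 4 * M) :
    ‖∑ n ∈ Ioc a b, e (G * Real.log ((n : ℝ) + θ))‖ ≤ 6 * Real.sqrt M := by
  have hMpos : (0 : ℝ) < M := by exact_mod_cast hM
  have hM1 : (1 : ℝ) ≤ M := by exact_mod_cast hM
  have hs : 0 < Real.sqrt M := Real.sqrt_pos.2 hMpos
  have hGne : G ≠ 0 := by
    rintro rfl
    rw [abs_zero] at hG1
    linarith
  have hk := kl_DL M G θ hGne hθ0 hθ1 hM [] (by simp) a b ha hb (by
    simp only [List.prod_nil, List.length_nil, Nat.factorial_zero, Nat.cast_one, mul_one,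
      zero_add, pow_one]
    rw [div_le_iff₀ hMpos]
    linarith)
  simp only [List.prod_nil, List.length_nil, Nat.factorial_zero, Nat.cast_one, mul_one,
      zero_add, pow_one, List.sum_nil, Nat.cast_zero, add_zero, D] at hk
  refine hk.trans ?_
  rw [div_le_iff₀ (abs_pos.2 hGne)]
  have h1 : Real.sqrt M * Real.sqrt M = M := Real.mul_self_sqrt hMpos.le
  calc 4 * (M : ℝ) + 2 ≤ 6 * M := by linarith
    _ = 6 * (Real.sqrt M * Real.sqrt M) := by rw [h1]
    _ ≤ 6 * (Real.sqrt M * |G|) := by gcongr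
    _ = 6 * Real.sqrt M * |G| := by ring

/-- Power saving for `∑ e(G log(n+θ))` over intervals inside `(M, 4M]`, when
`√M ≤ |G| ≤ M^B`. -/
theorem log_sum (B : ℕ) : ∃ C τ : ℝ, 0 < C ∧ 0 < τ ∧ τ ≤ 1 / 16 ∧
    ∀ (M : ℕ) (G θ : ℝ), 1 ≤ M → 0 ≤ θ → θ ≤ 1 → Real.sqrt M ≤ |G| →
    |G| ≤ (M : ℝ) ^ B →
    ∀ a b : ℕ, M ≤ a → b ≤ 4 * M →
    ‖∑ n ∈ Ioc a b, e (G * Real.log ((n : ℝ) + θ))‖ ≤ C * (M : ℝ) ^ (1 - τ) := by
  obtain ⟨C, τ, hC, hτ, hτ1, h⟩ := deriv_testsL B
  refine ⟨max C 64, τ, by positivity, hτ, hτ1, ?_⟩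
  intro M G θ hM hθ0 hθ1 hX1 hX2 a b ha hb
  set N : ℝ := (M : ℝ) with hN
  have hN1 : 1 ≤ N := by rw [hN]; exact_mod_cast hM
  have hNpos : 0 < N := by linarith
  have htriv : ‖∑ n ∈ Ioc a b, e (G * Real.log ((n : ℝ) + θ))‖ ≤ 4 * N := by
    calc _ ≤ ∑ n ∈ Ioc a b, ‖e (G * Real.log ((n : ℝ) + θ))‖ := norm_sum_le _ _
      _ = (#(Ioc a b) : ℝ) := by simp [norm_e]
      _ ≤ 4 * N := by
          rw [Nat.card_Ioc]
          have : b - a ≤ 4 * M := by omega
          rw [hN]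
          exact_mod_cast this
  by_cases hsmall : N < 16
  · -- small M
    have h1 : N ^ τ ≤ 16 := by
      calc N ^ τ ≤ N ^ (1 : ℝ) := Real.rpow_le_rpow_of_exponent_le hN1 (by linarith)
        _ = N := Real.rpow_one N
        _ ≤ 16 := hsmall.le
    have e1 : N = N ^ τ * N ^ (1 - τ) := by
      rw [← Real.rpow_add hNpos]; simp
    have h3 : 0 < N ^ (1 - τ) := Real.rpow_pos_of_pos hNpos _
    calc _ ≤ 4 * N := htriv
      _ = 4 * (N ^ τ * N ^ (1 - τ)) := by rw [← e1]
      _ ≤ 4 * (16 * N ^ (1 - τ)) := by gcongr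
      _ = 64 * N ^ (1 - τ) := by ring
      _ ≤ _ := by gcongr; exact le_max_right _ _
  · push Not at hsmall
    by_cases hcase : |G| ≤ N ^ (3 / 4 : ℝ)
    · have h2 : |G| ≤ N / 2 := by
        refine hcase.trans ?_
        have e1 : N = N ^ (3 / 4 : ℝ) * N ^ (1 / 4 : ℝ) := by
          rw [← Real.rpow_add hNpos]; norm_num
        have e2 : (2 : ℝ) ≤ N ^ (1 / 4 : ℝ) := by
          calc (2 : ℝ) = (16 : ℝ) ^ (1 / 4 : ℝ) := by
                rw [show (16 : ℝ) = 2 ^ (4 : ℝ) by norm_num, ← Real.rpow_mul (by norm_num)]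
                norm_num
            _ ≤ N ^ (1 / 4 : ℝ) := Real.rpow_le_rpow (by norm_num) hsmall (by norm_num)
        have e3 : 0 < N ^ (3 / 4 : ℝ) := Real.rpow_pos_of_pos hNpos _
        rw [le_div_iff₀ (by norm_num)]
        nth_rewrite 2 [e1]
        gcongr
      have := firstL M G θ hM hθ0 hθ1 hX1 h2 a b ha hb
      calc _ ≤ 6 * Real.sqrt N := this
        _ = 6 * N ^ (1 / 2 : ℝ) := by rw [Real.sqrt_eq_rpow]
        _ ≤ 6 * N ^ (1 - τ) := by
            gcongr
            linarith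
        _ ≤ _ := by
            gcongr
            exact (by norm_num : (6 : ℝ) ≤ 64).trans (le_max_right _ _)
    · push Not at hcase
      set X := |G| with hX
      have hNgt : 1 < N := by linarith
      have hex : ∃ r : ℕ, X ≤ N ^ ((r : ℝ) - 1 / 4) := by
        refine ⟨B + 1, hX2.trans ?_⟩
        rw [← Real.rpow_natCast N B]
        apply Real.rpow_le_rpow_of_exponent_le hN1
        push_cast; linarith
      classical
      set r := Nat.find hex with hr
      have hr1 : X ≤ N ^ ((r : ℝ) - 1 / 4) := Nat.find_spec hex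
      have hrB : r ≤ B + 1 := by
        apply Nat.find_min' hex
        refine hX2.trans ?_
        rw [← Real.rpow_natCast N B]
        apply Real.rpow_le_rpow_of_exponent_le hN1
        push_cast; linarith
      have hr2 : 2 ≤ r := by
        by_contra hlt
        have hle : r ≤ 1 := by omega
        have : X ≤ N ^ (3 / 4 : ℝ) := by
          refine hr1.trans ?_
          apply Real.rpow_le_rpow_of_exponent_le hN1
          have : (r : ℝ) ≤ 1 := by exact_mod_cast hle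
          linarith
        linarith
      have hr3 : N ^ ((r : ℝ) - 5 / 4) ≤ X := by
        have hnot := Nat.find_min hex (m := r - 1) (by omega)
        push Not at hnot
        have e1 : ((r - 1 : ℕ) : ℝ) - 1 / 4 = (r : ℝ) - 5 / 4 := by
          rw [Nat.cast_sub (by omega)]; push_cast; ring
        rw [e1] at hnot
        exact hnot.le
      refine (h r hr2 (by omega) M G θ hM hθ0 hθ1 hr3 hr1 a b ha hb).trans ?_
      gcongr
      exact le_max_left _ _

/-- second derivative test with all ranges of `G`. -/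
theorem secondL : ∃ C : ℝ, 0 < C ∧ ∀ (M : ℕ) (G : ℝ), 1 ≤ M → Real.sqrt M ≤ |G| →
    ∀ a b : ℕ, M ≤ a → b ≤ 4 * M →
    ‖∑ n ∈ Ioc a b, e (G * Real.log (n : ℝ))‖
      ≤ C * (1 + Real.log M) * (Real.sqrt M + Real.sqrt |G|) := by
  refine ⟨1000, by norm_num, ?_⟩
  intro M G hM hX1 a b ha hb
  set N : ℝ := (M : ℝ) with hN
  have hN1 : 1 ≤ N := by rw [hN]; exact_mod_cast hM
  have hNpos : 0 < N := by linarith
  have hlog : 0 ≤ Real.log N := Real.log_nonneg hN1
  have hsq1 : 1 ≤ Real.sqrt N := Real.one_le_sqrt.2 hN1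
  have hsqN : Real.sqrt N * Real.sqrt N = N := Real.mul_self_sqrt hNpos.le
  have hsqG : Real.sqrt |G| * Real.sqrt |G| = |G| := Real.mul_self_sqrt (abs_nonneg G)
  have hGpos : 0 < |G| := lt_of_lt_of_le (by linarith) hX1
  have hGne : G ≠ 0 := abs_pos.1 hGpos
  by_cases h1 : |G| ≤ N / 2
  · have := firstL M G 0 hM le_rfl zero_le_one hX1 h1 a b ha hb
    simp only [add_zero] at this
    calc _ ≤ 6 * Real.sqrt N := this
      _ ≤ 1000 * 1 * (Real.sqrt N + 0) := by linarith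
      _ ≤ 1000 * (1 + Real.log N) * (Real.sqrt N + Real.sqrt |G|) := by
          gcongr
          · linarith
          · exact Real.sqrt_nonneg _
  · push Not at h1
    have htriv : ‖∑ n ∈ Ioc a b, e (G * Real.log (n : ℝ))‖ ≤ 4 * N := by
      calc _ ≤ ∑ n ∈ Ioc a b, ‖e (G * Real.log (n : ℝ))‖ := norm_sum_le _ _
        _ = (#(Ioc a b) : ℝ) := by simp [norm_e]
        _ ≤ 4 * N := by
            rw [Nat.card_Ioc]
            have : b - a ≤ 4 * M := by omega
            rw [hN]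
            exact_mod_cast this
    set lm : ℝ := |G| / N ^ 2 with hlm
    have hlmpos : 0 < lm := by rw [hlm]; positivity
    by_cases h2 : 1 / 2 < lm
    · -- |G| > N^2 / 2
      have h3 : N ^ 2 / 2 < |G| := by
        rw [hlm, lt_div_iff₀ (by positivity)] at h2
        linarith
      have h4 : N ≤ 2 * Real.sqrt |G| := by
        have : Real.sqrt (N ^ 2 / 4) ≤ Real.sqrt |G| := by
          apply Real.sqrt_le_sqrt
          nlinarith
        rw [show N ^ 2 / 4 = (N / 2) ^ 2 by ring, Real.sqrt_sq (by positivity)] at this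
        linarith
      calc _ ≤ 4 * N := htriv
        _ ≤ 8 * Real.sqrt |G| := by linarith
        _ ≤ 1000 * 1 * (0 + Real.sqrt |G|) := by nlinarith [Real.sqrt_nonneg |G|]
        _ ≤ 1000 * (1 + Real.log N) * (Real.sqrt N + Real.sqrt |G|) := by
          gcongr
          · linarith
          · exact Real.sqrt_nonneg _
    · push Not at h2
      set H : ℕ := min M ⌊1 / (2 * lm)⌋₊ with hH
      have hfl : 1 ≤ ⌊1 / (2 * lm)⌋₊ := by
        apply Nat.le_floor
        rw [Nat.cast_one, le_div_iff₀ (by positivity)]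
        linarith
      have hH1 : 1 ≤ H := le_min hM hfl
      have hHM : H ≤ M := min_le_left _ _
      have hHlam : (H : ℝ) * lm ≤ 1 / 2 := by
        have h1 : (H : ℝ) ≤ 1 / (2 * lm) := by
          calc (H : ℝ) ≤ (⌊1 / (2 * lm)⌋₊ : ℝ) := by exact_mod_cast min_le_right _ _
            _ ≤ 1 / (2 * lm) := Nat.floor_le (by positivity)
        rw [le_div_iff₀ (by positivity)] at h1
        linarith
      have hHinv : 1 ≤ (H : ℝ) * (1 / N + 4 * lm) := by
        rcases min_choice M ⌊1 / (2 * lm)⌋₊ with h | h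
        · rw [hH, h, ← hN]
          have : N * (1 / N + 4 * lm) = 1 + 4 * N * lm := by field_simp
          rw [this]
          have : 0 ≤ 4 * N * lm := by positivity
          linarith
        · have h2 : 1 / (2 * lm) < ⌊1 / (2 * lm)⌋₊ + 1 := Nat.lt_floor_add_one _
          have h3 : (1 : ℝ) ≤ ⌊1 / (2 * lm)⌋₊ := by exact_mod_cast hfl
          rw [← h, ← hH] at h2 h3
          have h4 : 1 / (2 * lm) ≤ 2 * (H : ℝ) := by linarith
          rw [div_le_iff₀ (by positivity)] at h4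
          have h5 : 0 ≤ (H : ℝ) * (1 / N) := by positivity
          nlinarith
      have hstep := vdc_DL M G 0 [] a b H hH1 (by omega) hM hb
      simp only [D, add_zero] at hstep
      have hinner : ∀ d ∈ Ico 1 H, ‖∑ n ∈ Ioc a (b - d),
          e (G * (Real.log ((n : ℝ) + d) - Real.log (n : ℝ)))‖
          ≤ (49 / lm) * (1 / d) := by
        intro d hd
        rw [mem_Ico] at hd
        have hdpos : (0 : ℝ) < d := by
          have : 0 < d := by omega
          exact_mod_cast this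
        have hkl := kl_DL M G 0 hGne le_rfl zero_le_one hM [d] (by
          intro h hh
          simp only [List.mem_singleton] at hh
          rw [hh]; exact hd.1) a (b - d) ha (by omega)
        simp only [List.prod_cons, List.prod_nil, List.sum_cons, List.sum_nil,
          List.length_cons, List.length_nil, mul_one, add_zero, zero_add, Nat.factorial_one,
          Nat.cast_one, D] at hkl
        have hdM : (d : ℝ) ≤ N := by
          rw [hN]
          have : d ≤ M := by omega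
          exact_mod_cast this
        have hup : |G| * (d : ℝ) / (M : ℝ) ^ (1 + 1) ≤ 1 / 2 := by
          have : |G| * (d : ℝ) / (M : ℝ) ^ (1 + 1) = d * lm := by
            rw [hlm, hN]; ring
          rw [this]
          have hdH : (d : ℝ) ≤ H := by exact_mod_cast hd.2.le
          nlinarith
        refine (hkl hup).trans ?_
        have hbase : 4 * (M : ℝ) + 2 + (d : ℝ) ≤ 7 * N := by
          rw [← hN]; linarith
        calc (4 * (M : ℝ) + 2 + (d : ℝ)) ^ (1 + 1) / (|G| * (d : ℝ))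
            ≤ (7 * N) ^ (1 + 1) / (|G| * (d : ℝ)) := by gcongr
          _ = (49 / lm) * (1 / d) := by
              rw [hlm]
              field_simp
              ring
      have hsumd : ∑ d ∈ Ico 1 H, ‖∑ n ∈ Ioc a (b - d),
          e (G * (Real.log ((n : ℝ) + d) - Real.log (n : ℝ)))‖
          ≤ (49 / lm) * (1 + Real.log N) := by
        calc _ ≤ ∑ d ∈ Ico 1 H, (49 / lm) * (1 / d) := sum_le_sum hinner
          _ = (49 / lm) * ∑ d ∈ Ico 1 H, (1 : ℝ) / d := by rw [mul_sum]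
          _ ≤ (49 / lm) * (1 + Real.log M) := by
              gcongr
              exact sum_inv_le H M (by omega)
      set Sn := ‖∑ n ∈ Ioc a b, e (G * Real.log (n : ℝ))‖ with hSn
      set K : ℝ := 1 + Real.log N with hK
      have hK1 : 1 ≤ K := by rw [hK]; linarith
      have t1 : (H : ℝ) * Sn ^ 2 ≤ (5 * N) * (5 * N + 2 * ((49 / lm) * K)) := by
        refine hstep.trans ?_
        rw [← hN]
        gcongr
      have t2 : Sn ^ 2 ≤ (1 / N + 4 * lm) * ((5 * N) * (5 * N + 2 * ((49 / lm) * K))) := by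
        calc Sn ^ 2 = 1 * Sn ^ 2 := by ring
          _ ≤ ((H : ℝ) * (1 / N + 4 * lm)) * Sn ^ 2 := by gcongr
          _ = (1 / N + 4 * lm) * ((H : ℝ) * Sn ^ 2) := by ring
          _ ≤ _ := by gcongr
      have t3 : (1 / N + 4 * lm) * ((5 * N) * (5 * N + 2 * ((49 / lm) * K)))
          = 25 * N + 490 * K / lm + 100 * (lm * N ^ 2) + 1960 * K * N := by
        field_simp
        ring
      have t4 : lm * N ^ 2 = |G| := by rw [hlm]; field_simp
      have t5 : 490 * K / lm ≤ 980 * K * N := by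
        rw [div_le_iff₀ hlmpos]
        have : 1 ≤ 2 * N * lm := by
          have e1 : 2 * N * lm = 2 * |G| / N := by rw [hlm]; field_simp
          rw [e1, le_div_iff₀ hNpos]
          linarith
        have hK0 : 0 ≤ 490 * K := by positivity
        nlinarith
      have t6 : Sn ^ 2 ≤ (1000 * K * (Real.sqrt N + Real.sqrt |G|)) ^ 2 := by
        rw [t3, t4] at t2
        have u1 : (1000 * K * (Real.sqrt N + Real.sqrt |G|)) ^ 2
            = 1000000 * (K * K) * (N + |G| + 2 * (Real.sqrt N * Real.sqrt |G|)) := by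
          have : (Real.sqrt N + Real.sqrt |G|) ^ 2
              = N + |G| + 2 * (Real.sqrt N * Real.sqrt |G|) := by
            calc (Real.sqrt N + Real.sqrt |G|) ^ 2
                = Real.sqrt N * Real.sqrt N + Real.sqrt |G| * Real.sqrt |G|
                  + 2 * (Real.sqrt N * Real.sqrt |G|) := by ring
              _ = _ := by rw [hsqN, hsqG]
          rw [mul_pow, this]; ring
        rw [u1]
        have u2 : 0 ≤ Real.sqrt N * Real.sqrt |G| := by positivity
        have u3 : K ≤ K * K := by nlinarith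
        have u4 : K * N ≤ K * K * N := by gcongr
        have u5 : N ≤ K * K * N := by nlinarith
        have u6 : |G| ≤ K * K * |G| := by nlinarith
        have u7 : 0 ≤ K * K * (Real.sqrt N * Real.sqrt |G|) := by positivity
        nlinarith
      exact abs_le_of_sq_le_sq' t6 (by positivity) |>.2

end Pool.Agent.H24.MR
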