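import Mathlib
import Pool.Agent.H24.MR.LogSum

set_option autoImplicit false

namespace Pool.Agent.H24.MR

open Finset Pool.Agent.H24.Sqf MeasureTheory

/-- Abel summation inequality. -/
theorem abel_ineq (w : ℕ → ℝ) (z : ℕ → ℂ) (a b : ℕ) (S : ℝ) (hab : a ≤ b)
    (hw0 : ∀ n, a < n → 0 ≤ w n) (hw : ∀ n, a < n → w (n + 1) ≤ w n)
    (hS : ∀ k, a ≤ k → k ≤ b → ‖∑ n ∈ Ioc a k, z n‖ ≤ S) :
    ‖∑ n ∈ Ioc a b, (w n : ℂ) * z n‖ ≤ w (a + 1) * S := by
  have hS0 : 0 ≤ S := le_trans (norm_nonneg _) (hS a le_rfl hab)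
  have key : ∀ b', a ≤ b' → b' ≤ b →
      ∑ n ∈ Ioc a b', (w n : ℂ) * z n = (w (b' + 1) : ℂ) * ∑ n ∈ Ioc a b', z n
        + ∑ n ∈ Ioc a b', ((w n - w (n + 1) : ℝ) : ℂ) * ∑ m ∈ Ioc a n, z m := by
    intro b' hb'
    induction b', hb' using Nat.le_induction with
    | base => intro _; simp
    | succ k hk ih =>
      intro hkb
      have := ih (by omega)
      rw [← Finset.insert_Ioc_right_eq_Ioc_add_one hk, sum_insert (by simp), sum_insert (by simp),
        sum_insert (by simp), this]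
      rw [show ∑ m ∈ Ioc a (k + 1), z m = z (k + 1) + ∑ m ∈ Ioc a k, z m by
        rw [← Finset.insert_Ioc_right_eq_Ioc_add_one hk, sum_insert (by simp)]]
      push_cast
      ring
  have hle : ∀ b', a ≤ b' → b' ≤ b →
      ‖∑ n ∈ Ioc a b', (w n : ℂ) * z n‖ ≤ w (b' + 1) * S + ∑ n ∈ Ioc a b', (w n - w (n + 1)) * S := by
    intro b' h1 h2
    rw [key b' h1 h2]
    refine (norm_add_le _ _).trans ?_
    gcongr
    · rw [norm_mul, Complex.norm_real, Real.norm_of_nonneg (hw0 _ (by omega))]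
      gcongr
      · exact hw0 _ (by omega)
      · exact hS b' h1 h2
    · refine (norm_sum_le _ _).trans ?_
      apply sum_le_sum
      intro n hn
      rw [mem_Ioc] at hn
      rw [norm_mul, Complex.norm_real, Real.norm_of_nonneg (by linarith [hw n hn.1])]
      gcongr
      · linarith [hw n hn.1]
      · exact hS n (by omega) (by omega)
  have htel : ∀ b', a ≤ b' → ∑ n ∈ Ioc a b', (w n - w (n + 1)) = w (a + 1) - w (b' + 1) := by
    intro b' hb'
    induction b', hb' using Nat.le_induction with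
    | base => simp
    | succ k hk ih =>
      rw [← Finset.insert_Ioc_right_eq_Ioc_add_one hk, sum_insert (by simp), ih]
      ring
  refine (hle b hab le_rfl).trans ?_
  rw [← sum_mul, htel b hab]
  linarith

/-- order zero Euler–Maclaurin -/
theorem euler0 (φ φ' : ℝ → ℂ) (a b : ℕ) (K : ℝ) (hab : a ≤ b)
    (hd : ∀ x : ℝ, (a : ℝ) ≤ x → HasDerivAt φ (φ' x) x)
    (hK : ∀ x : ℝ, (a : ℝ) ≤ x → ‖φ' x‖ ≤ K) :
    ‖∑ n ∈ Ioc a b, φ n - ∫ x in (a : ℝ)..b, φ x‖ ≤ (b - a) * K := by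
  have hcont : ∀ c d : ℝ, (a : ℝ) ≤ c → c ≤ d → IntervalIntegrable φ volume c d := by
    intro c d hc hcd
    apply ContinuousOn.intervalIntegrable
    intro x hx
    rw [Set.uIcc_of_le hcd] at hx
    exact (hd x (hc.trans hx.1)).continuousAt.continuousWithinAt
  have hstep : ∀ n : ℕ, a ≤ n → ‖φ ((n : ℝ) + 1) - ∫ x in (n : ℝ)..(n + 1), φ x‖ ≤ K := by
    intro n hn
    have hnR : (a : ℝ) ≤ n := by exact_mod_cast hn
    have e1 : φ ((n : ℝ) + 1) - ∫ x in (n : ℝ)..(n + 1), φ x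
        = ∫ x in (n : ℝ)..(n + 1), (φ ((n : ℝ) + 1) - φ x) := by
      rw [intervalIntegral.integral_sub intervalIntegrable_const (hcont _ _ hnR (by linarith))]
      simp
    rw [e1]
    have h2 : ∀ x ∈ Set.uIoc (n : ℝ) (n + 1), ‖φ ((n : ℝ) + 1) - φ x‖ ≤ K := by
      intro x hx
      rw [Set.uIoc_of_le (by linarith)] at hx
      have h3 := (convex_Ici (a : ℝ)).norm_image_sub_le_of_norm_hasDerivWithin_le
        (f := φ) (f' := φ') (C := K)
        (fun y hy => (hd y hy).hasDerivWithinAt) (fun y hy => hK y hy)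
        (show x ∈ Set.Ici (a : ℝ) from hnR.trans hx.1.le)
        (show (n : ℝ) + 1 ∈ Set.Ici (a : ℝ) from (by simp only [Set.mem_Ici]; linarith))
      have hK0 : 0 ≤ K := le_trans (norm_nonneg _) (hK a le_rfl)
      refine h3.trans ?_
      have : ‖(n : ℝ) + 1 - x‖ ≤ 1 := by
        rw [Real.norm_of_nonneg (by linarith [hx.2])]
        linarith [hx.1]
      nlinarith
    have := intervalIntegral.norm_integral_le_of_norm_le_const h2
    simpa using this
  have hmain : ∀ b', a ≤ b' →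
      ‖∑ n ∈ Ioc a b', φ n - ∫ x in (a : ℝ)..b', φ x‖ ≤ (b' - a) * K := by
    intro b' hb'
    induction b', hb' using Nat.le_induction with
    | base => simp
    | succ k hk ih =>
      have hkR : (a : ℝ) ≤ k := by exact_mod_cast hk
      rw [← Finset.insert_Ioc_right_eq_Ioc_add_one hk, sum_insert (by simp)]
      have e2 : ∫ x in (a : ℝ)..((k + 1 : ℕ) : ℝ), φ x
          = (∫ x in (a : ℝ)..(k : ℝ), φ x) + ∫ x in (k : ℝ)..(k + 1), φ x := by
        push_cast
        rw [intervalIntegral.integral_add_adjacent_intervals (hcont _ _ le_rfl hkR)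
          (hcont _ _ hkR (by linarith))]
      rw [e2]
      have e3 : φ ((k + 1 : ℕ) : ℝ) + ∑ n ∈ Ioc a k, φ n
          - ((∫ x in (a : ℝ)..(k : ℝ), φ x) + ∫ x in (k : ℝ)..(k + 1), φ x)
          = (φ ((k : ℝ) + 1) - ∫ x in (k : ℝ)..(k + 1), φ x)
            + (∑ n ∈ Ioc a k, φ n - ∫ x in (a : ℝ)..k, φ x) := by
        push_cast; ring
      rw [e3]
      refine (norm_add_le _ _).trans ?_
      have h1 := hstep k hk
      push_cast
      linarith
  exact hmain b hab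

theorem cpow_eq (x σ τ : ℝ) (hx : 0 < x) :
    ((x : ℝ) : ℂ) ^ (-(1 + σ : ℂ) - τ * Complex.I)
      = ((x ^ (-(1 + σ)) : ℝ) : ℂ) * e ((-τ / (2 * Real.pi)) * Real.log x) := by
  rw [Complex.cpow_def_of_ne_zero (by exact_mod_cast hx.ne'), Real.rpow_def_of_pos hx, e,
    Complex.ofReal_exp, ← Complex.exp_add, ← Complex.ofReal_log hx.le]
  congr 1
  push_cast
  have : (Real.pi : ℂ) ≠ 0 := by exact_mod_cast Real.pi_ne_zero
  field_simp
  ring

theorem norm_cpow_eq (x σ τ : ℝ) (hx : 0 < x) :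
    ‖((x : ℝ) : ℂ) ^ (-(1 + σ : ℂ) - τ * Complex.I)‖ = x ^ (-(1 + σ)) := by
  rw [cpow_eq x σ τ hx, norm_mul, norm_e, mul_one, Complex.norm_real,
    Real.norm_of_nonneg (by positivity)]

theorem hasDerivAt_cpow_shift (s : ℂ) (θ x : ℝ) (hx : 0 < x + θ) :
    HasDerivAt (fun y : ℝ => ((y + θ : ℝ) : ℂ) ^ s) (s * ((x + θ : ℝ) : ℂ) ^ (s - 1)) x := by
  have h1 : HasDerivAt (fun z : ℂ => z ^ s) (s * ((x + θ : ℝ) : ℂ) ^ (s - 1)) ((x + θ : ℝ) : ℂ) := by
    have := (hasDerivAt_id ((x + θ : ℝ) : ℂ)).cpow_const (c := s) (by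
      rw [id, Complex.ofReal_mem_slitPlane]; exact hx)
    simpa using this
  exact (h1.comp_ofReal).comp_add_const x θ

theorem int_bound (a b : ℕ) (θ σ τ : ℝ) (ha : 1 ≤ a) (hab : a ≤ b) (hθ : 0 ≤ θ) (hσ : 0 ≤ σ)
    (hτ : τ ≠ 0) :
    ‖∫ x in (a : ℝ)..b, ((x + θ : ℝ) : ℂ) ^ (-(1 + σ : ℂ) - τ * Complex.I)‖ ≤ 2 / |τ| := by
  have haR : (1 : ℝ) ≤ a := by exact_mod_cast ha
  have habR : (a : ℝ) ≤ b := by exact_mod_cast hab
  set s : ℂ := -(σ : ℂ) - τ * Complex.I with hs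
  have hsne : s ≠ 0 := by
    intro h
    have : s.im = 0 := by rw [h]; simp
    rw [hs] at this
    simp at this
    exact hτ this
  have hsnorm : |τ| ≤ ‖s‖ := by
    have := Complex.abs_im_le_norm s
    rw [hs] at this
    simpa [hs] using this
  have hF : ∀ x ∈ Set.uIcc (a : ℝ) b, HasDerivAt (fun y : ℝ => ((y + θ : ℝ) : ℂ) ^ s / s)
      (((x + θ : ℝ) : ℂ) ^ (-(1 + σ : ℂ) - τ * Complex.I)) x := by
    intro x hx
    rw [Set.uIcc_of_le habR] at hx
    have h1 := (hasDerivAt_cpow_shift s θ x (by linarith [hx.1])).div_const s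
    have e1 : s - 1 = -(1 + σ : ℂ) - τ * Complex.I := by rw [hs]; ring
    rw [e1] at h1
    have e2 : s * ((x + θ : ℝ) : ℂ) ^ (-(1 + σ : ℂ) - τ * Complex.I) / s
        = ((x + θ : ℝ) : ℂ) ^ (-(1 + σ : ℂ) - τ * Complex.I) := by
      field_simp
    rw [e2] at h1
    exact h1
  have hint : IntervalIntegrable (fun x : ℝ => ((x + θ : ℝ) : ℂ) ^ (-(1 + σ : ℂ) - τ * Complex.I))
      volume a b := by
    apply ContinuousOn.intervalIntegrable
    intro x hx
    rw [Set.uIcc_of_le habR] at hx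
    exact (hasDerivAt_cpow_shift _ θ x (by linarith [hx.1])).continuousAt.continuousWithinAt
  rw [intervalIntegral.integral_eq_sub_of_hasDerivAt hF hint]
  have hn : ∀ y : ℝ, (a : ℝ) ≤ y → ‖((y + θ : ℝ) : ℂ) ^ s / s‖ ≤ 1 / |τ| := by
    intro y hy
    rw [norm_div, Complex.norm_cpow_eq_rpow_re_of_pos (by linarith)]
    have h1 : s.re = -σ := by rw [hs]; simp
    rw [h1]
    have h2 : (y + θ) ^ (-σ) ≤ 1 := Real.rpow_le_one_of_one_le_of_nonpos (by linarith) (by linarith)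
    have h3 : 0 < |τ| := abs_pos.2 hτ
    gcongr
  calc _ ≤ ‖((((b : ℝ) + θ : ℝ) : ℂ)) ^ s / s‖ + ‖((((a : ℝ) + θ : ℝ) : ℂ)) ^ s / s‖ :=
        norm_sub_le _ _
    _ ≤ 1 / |τ| + 1 / |τ| := add_le_add (hn b habR) (hn a le_rfl)
    _ = 2 / |τ| := by ring

/-- small `τ` -/
theorem block_small (a b : ℕ) (θ σ τ : ℝ) (ha : 1 ≤ a) (hab : a ≤ b) (hb : b ≤ 4 * a)
    (hθ : 0 ≤ θ) (hσ : 0 ≤ σ) (hσ1 : σ ≤ 1) (hτ : |τ| ≤ 2 * Real.pi * Real.sqrt a) :
    ‖∑ n ∈ Finset.Ioc a b, (((n : ℝ) + θ : ℝ) : ℂ) ^ (-(1 + σ : ℂ) - τ * Complex.I)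
      - ∫ x in (a : ℝ)..b, ((x + θ : ℝ) : ℂ) ^ (-(1 + σ : ℂ) - τ * Complex.I)‖
      ≤ 30 * Real.sqrt a / a := by
  have haR : (1 : ℝ) ≤ a := by exact_mod_cast ha
  have haP : (0 : ℝ) < a := by linarith
  have hsq : 1 ≤ Real.sqrt a := Real.one_le_sqrt.2 haR
  set s : ℂ := -(1 + σ : ℂ) - τ * Complex.I with hs
  have hsn : ‖s‖ ≤ 2 + |τ| := by
    calc ‖s‖ ≤ ‖-(1 + σ : ℂ)‖ + ‖(τ : ℂ) * Complex.I‖ := norm_sub_le _ _
      _ = |1 + σ| + |τ| := by
          rw [norm_neg, norm_mul, Complex.norm_I, mul_one, Complex.norm_real, Real.norm_eq_abs]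
          congr 1
          rw [← Complex.ofReal_one, ← Complex.ofReal_add, Complex.norm_real, Real.norm_eq_abs]
      _ ≤ 2 + |τ| := by
          rw [abs_of_nonneg (by linarith)]; linarith
  have h := euler0 (fun y : ℝ => ((y + θ : ℝ) : ℂ) ^ s) (fun x => s * ((x + θ : ℝ) : ℂ) ^ (s - 1))
    a b ((2 + |τ|) / (a : ℝ) ^ 2) hab
    (fun x hx => hasDerivAt_cpow_shift s θ x (by linarith))
    (by
      intro x hx
      rw [norm_mul, Complex.norm_cpow_eq_rpow_re_of_pos (by linarith)]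
      have h1 : (s - 1).re = -(σ + 2) := by rw [hs]; simp; ring
      rw [h1]
      have h2 : (x + θ) ^ (-(σ + 2)) ≤ 1 / (a : ℝ) ^ 2 := by
        rw [Real.rpow_neg (by linarith), one_div]
        apply inv_anti₀ (by positivity)
        calc (a : ℝ) ^ 2 = (a : ℝ) ^ (2 : ℝ) := by norm_cast
          _ ≤ (x + θ) ^ (2 : ℝ) := Real.rpow_le_rpow haP.le (by linarith) (by norm_num)
          _ ≤ (x + θ) ^ (σ + 2) := by
              apply Real.rpow_le_rpow_of_exponent_le (by linarith) (by linarith)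
      have h3 : 0 ≤ (x + θ) ^ (-(σ + 2)) := Real.rpow_nonneg (by linarith) _
      calc ‖s‖ * (x + θ) ^ (-(σ + 2)) ≤ (2 + |τ|) * (1 / (a : ℝ) ^ 2) := by gcongr
        _ = _ := by ring)
  refine h.trans ?_
  have hba : (b : ℝ) - a ≤ 3 * a := by
    have : (b : ℝ) ≤ 4 * a := by exact_mod_cast hb
    linarith
  have hpi : Real.pi ≤ 3.15 := Real.pi_lt_d2.le.trans (by norm_num)
  have hτ2 : 2 + |τ| ≤ 10 * Real.sqrt a := by nlinarith
  calc ((b : ℝ) - a) * ((2 + |τ|) / (a : ℝ) ^ 2) ≤ (3 * a) * ((10 * Real.sqrt a) / (a : ℝ) ^ 2) := by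
        gcongr
    _ = 30 * Real.sqrt a / a := by field_simp; ring

/-- large `τ`: reduction to exponential sums -/
theorem block_large (a b : ℕ) (θ σ τ S : ℝ) (ha : 1 ≤ a) (hab : a ≤ b)
    (hθ : 0 ≤ θ) (hσ : 0 ≤ σ) (hτ : 0 < |τ|)
    (hS : ∀ k, a ≤ k → k ≤ b →
      ‖∑ n ∈ Ioc a k, e ((-τ / (2 * Real.pi)) * Real.log ((n : ℝ) + θ))‖ ≤ S) :
    ‖∑ n ∈ Finset.Ioc a b, (((n : ℝ) + θ : ℝ) : ℂ) ^ (-(1 + σ : ℂ) - τ * Complex.I)
      - ∫ x in (a : ℝ)..b, ((x + θ : ℝ) : ℂ) ^ (-(1 + σ : ℂ) - τ * Complex.I)‖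
      ≤ S / a + 2 / |τ| := by
  have haR : (1 : ℝ) ≤ a := by exact_mod_cast ha
  have haP : (0 : ℝ) < a := by linarith
  have hS0 : 0 ≤ S := le_trans (norm_nonneg _) (hS a le_rfl hab)
  refine (norm_sub_le _ _).trans ?_
  gcongr ?_ + ?_
  · have e1 : ∑ n ∈ Finset.Ioc a b, (((n : ℝ) + θ : ℝ) : ℂ) ^ (-(1 + σ : ℂ) - τ * Complex.I)
        = ∑ n ∈ Finset.Ioc a b, ((((n : ℝ) + θ) ^ (-(1 + σ)) : ℝ) : ℂ)
          * e ((-τ / (2 * Real.pi)) * Real.log ((n : ℝ) + θ)) := by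
      apply sum_congr rfl
      intro n hn
      rw [mem_Ioc] at hn
      have : (0 : ℝ) < n := by
        have : 0 < n := by omega
        exact_mod_cast this
      exact cpow_eq _ _ _ (by linarith)
    rw [e1]
    have h := abel_ineq (fun n : ℕ => ((n : ℝ) + θ) ^ (-(1 + σ)))
      (fun n : ℕ => e ((-τ / (2 * Real.pi)) * Real.log ((n : ℝ) + θ))) a b S hab
      (by intro n _; positivity)
      (by
        intro n hn
        have : (0 : ℝ) < n := by
          have : 0 < n := by omega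
          exact_mod_cast this
        apply Real.rpow_le_rpow_of_nonpos (by linarith)
        · push_cast; linarith
        · linarith) hS
    refine h.trans ?_
    rw [div_eq_inv_mul]
    gcongr
    push_cast
    rw [Real.rpow_neg (by linarith)]
    apply inv_anti₀ haP
    calc (a : ℝ) = (a : ℝ) ^ (1 : ℝ) := (Real.rpow_one _).symm
      _ ≤ ((a : ℝ) + 1 + θ) ^ (1 : ℝ) := Real.rpow_le_rpow haP.le (by linarith) (by norm_num)
      _ ≤ ((a : ℝ) + 1 + θ) ^ (1 + σ) :=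
          Real.rpow_le_rpow_of_exponent_le (by linarith) (by linarith)
  · exact int_bound a b θ σ τ ha hab hθ hσ (abs_pos.1 hτ)

theorem be1 : StatementBE1 := by
  intro B
  obtain ⟨C, δ, hC, hδ, hδ1, h⟩ := log_sum B
  refine ⟨C + 40, δ, by positivity, hδ, ?_⟩
  intro a b θ σ τ ha hab hb hθ0 hθ1 hσ0 hσ1 hτ
  have haR : (1 : ℝ) ≤ a := by exact_mod_cast ha
  have haP : (0 : ℝ) < a := by linarith
  have hsq : 1 ≤ Real.sqrt a := Real.one_le_sqrt.2 haR
  have hsqd : Real.sqrt a / a ≤ (a : ℝ) ^ (-δ) := by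
    rw [Real.sqrt_eq_rpow]
    have : (a : ℝ) ^ (1 / 2 : ℝ) / a = (a : ℝ) ^ (-(1 / 2) : ℝ) := by
      nth_rewrite 2 [← Real.rpow_one (a : ℝ)]
      rw [← Real.rpow_sub haP]
      norm_num
    rw [this]
    apply Real.rpow_le_rpow_of_exponent_le haR
    linarith
  by_cases hcase : |τ| ≤ 2 * Real.pi * Real.sqrt a
  · refine (block_small a b θ σ τ ha hab hb hθ0 hσ0 hσ1 hcase).trans ?_
    calc 30 * Real.sqrt a / a = 30 * (Real.sqrt a / a) := by ring
      _ ≤ 30 * (a : ℝ) ^ (-δ) := by gcongr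
      _ ≤ _ := by gcongr; linarith
  · push Not at hcase
    have hpi := Real.pi_gt_three
    have hτpos : 0 < |τ| := lt_trans (by positivity) hcase
    have hG : |(-τ / (2 * Real.pi))| = |τ| / (2 * Real.pi) := by
      rw [abs_div, abs_neg, abs_of_pos (by positivity : (0 : ℝ) < 2 * Real.pi)]
    have h1 := block_large a b θ σ τ (C * (a : ℝ) ^ (1 - δ)) ha hab hθ0 hσ0 hτpos (by
      intro k hk1 hk2
      apply h a (-τ / (2 * Real.pi)) θ ha hθ0 hθ1 _ _ a k le_rfl (by omega)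
      · rw [hG, le_div_iff₀ (by positivity)]
        linarith
      · rw [hG]
        refine le_trans ?_ hτ
        rw [div_le_iff₀ (by positivity)]
        nlinarith)
    refine h1.trans ?_
    have e1 : C * (a : ℝ) ^ (1 - δ) / a = C * (a : ℝ) ^ (-δ) := by
      rw [mul_div_assoc]
      congr 1
      nth_rewrite 2 [← Real.rpow_one (a : ℝ)]
      rw [← Real.rpow_sub haP]
      congr 1; ring
    have e2 : 2 / |τ| ≤ 40 * (a : ℝ) ^ (-δ) := by
      calc 2 / |τ| ≤ 2 / Real.sqrt a := by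
            gcongr
            nlinarith
        _ = 2 * (Real.sqrt a / a) := by
            rw [Real.sqrt_div_self, div_eq_mul_inv]
        _ ≤ 2 * (a : ℝ) ^ (-δ) := by gcongr
        _ ≤ _ := by gcongr; norm_num
    rw [e1]
    linarith

theorem be2 : StatementBE2 := by
  obtain ⟨C, hC, h⟩ := secondL
  refine ⟨C + 40, by positivity, ?_⟩
  intro a b τ ha hab hb
  have haR : (1 : ℝ) ≤ a := by exact_mod_cast ha
  have haP : (0 : ℝ) < a := by linarith
  have hsq : 1 ≤ Real.sqrt a := Real.one_le_sqrt.2 haR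
  have hlog : 0 ≤ Real.log a := Real.log_nonneg haR
  have hK : 1 ≤ 1 + Real.log a := by linarith
  have hconv : ∀ x : ℝ, ((x : ℝ) : ℂ) ^ (-(1 : ℂ) - τ * Complex.I)
      = ((x + 0 : ℝ) : ℂ) ^ (-(1 + (0 : ℝ) : ℂ) - τ * Complex.I) := by
    intro x; simp
  simp_rw [hconv]
  by_cases hcase : |τ| ≤ 2 * Real.pi * Real.sqrt a
  · refine (block_small a b 0 0 τ ha hab hb le_rfl le_rfl zero_le_one hcase).trans ?_
    have key : 30 * Real.sqrt a ≤ (C + 40) * (1 + Real.log a) * (Real.sqrt a + Real.sqrt |τ|) := by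
      calc 30 * Real.sqrt a ≤ (C + 40) * 1 * (Real.sqrt a + 0) := by
            have : 0 < C * Real.sqrt a := by positivity
            nlinarith
        _ ≤ (C + 40) * (1 + Real.log a) * (Real.sqrt a + Real.sqrt |τ|) := by
            gcongr
            exact Real.sqrt_nonneg _
    exact div_le_div_of_nonneg_right key haP.le
  · push Not at hcase
    have hpi := Real.pi_gt_three
    have hτpos : 0 < |τ| := lt_trans (by positivity) hcase
    have hG : |(-τ / (2 * Real.pi))| = |τ| / (2 * Real.pi) := by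
      rw [abs_div, abs_neg, abs_of_pos (by positivity : (0 : ℝ) < 2 * Real.pi)]
    have hGle : |(-τ / (2 * Real.pi))| ≤ |τ| := by
      rw [hG, div_le_iff₀ (by positivity)]
      nlinarith
    have h1 := block_large a b 0 0 τ (C * (1 + Real.log a) * (Real.sqrt a + Real.sqrt |τ|))
      ha hab le_rfl le_rfl hτpos (by
      intro k hk1 hk2
      have := h a (-τ / (2 * Real.pi)) ha (by
        rw [hG, le_div_iff₀ (by positivity)]
        linarith) a k le_rfl (by omega)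
      simp only [add_zero]
      refine this.trans ?_
      gcongr)
    refine h1.trans ?_
    have e2 : 2 / |τ| ≤ 40 * (1 + Real.log a) * (Real.sqrt a + Real.sqrt |τ|) / a := by
      calc 2 / |τ| ≤ 2 / Real.sqrt a := by
            gcongr
            nlinarith
        _ = 2 * (Real.sqrt a / a) := by
            rw [Real.sqrt_div_self, div_eq_mul_inv]
        _ ≤ 40 * 1 * (Real.sqrt a + 0) / a := by
            rw [← mul_div_assoc]
            apply div_le_div_of_nonneg_right _ haP.le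
            nlinarith
        _ ≤ _ := by
            gcongr
            exact Real.sqrt_nonneg _
    calc _ ≤ C * (1 + Real.log a) * (Real.sqrt a + Real.sqrt |τ|) / a
          + 40 * (1 + Real.log a) * (Real.sqrt a + Real.sqrt |τ|) / a := by gcongr
      _ = _ := by ring

end Pool.Agent.H24.MR
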