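import Mathlib
import Pool.Agent.H24.MR.InterfaceMR

/-!
Interface for the chain of scales ([CH]) of project T1 on `MP_c59857_nt`.
-/

set_option autoImplicit false

open Finset Filter

namespace Pool.Agent.H24.MR

/-- logarithm of the lower end of the `j`-th range of primes -/
def xs (B j : ℕ) : ℕ := B ^ (2 ^ j)

/-- logarithm of the upper end of the `j`-th range of primes -/
def ys (A B j : ℕ) : ℕ := (A * B) ^ (2 ^ j)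

/-- the `j`-th set of primes -/
noncomputable def Ps (W A B j : ℕ) : Finset ℕ :=
  (Finset.Ioc ⌊Real.exp (xs B j)⌋₊ ⌊Real.exp (ys A B j)⌋₊).filter
    (fun p => p.Prime ∧ p ≡ 1 [MOD W])

/-- the cell parameter of the `j`-th scale -/
def Hs (K j : ℕ) : ℕ := K * 2 ^ j

/-- the exponents `1/10 = al 0 < al 1 < ... < 1/5` -/
noncomputable def al (j : ℕ) : ℝ := 1 / 5 - 1 / 10 / 2 ^ j

/-- [CHa] the mass of the `j`-th set of primes. -/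
def StatementCHa : Prop :=
  ∀ W K : ℕ, 0 < W → ∃ A B₀ : ℕ, 1 ≤ A ∧ ∀ B, B₀ ≤ B → ∀ j,
    ((K * 2 ^ j : ℕ) : ℝ) ≤ ∑ p ∈ Ps W A B j, (1 : ℝ) / p

/-- [CHb] facts on cells. -/
def StatementCHb : Prop :=
  ∀ W A B K j : ℕ, 1 ≤ A → 1 ≤ B → 2 ≤ K →
    (((Ps W A B j).image (cell (Hs K j))).card ≤ Hs K j * ys A B j + 1) ∧
    ∀ v ∈ (Ps W A B j).image (cell (Hs K j)),
      (xs B j : ℝ) ≤ (v : ℝ) / Hs K j ∧ (v : ℝ) / Hs K j ≤ ys A B j ∧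
      (∀ p ∈ (Ps W A B j).filter (fun p => cell (Hs K j) p = v),
        Real.exp ((v : ℝ) / Hs K j) ≤ p ∧ (p : ℝ) ≤ Real.exp ((v : ℝ) / Hs K j + 1)) ∧
      ∑ p ∈ (Ps W A B j).filter (fun p => cell (Hs K j) p = v), (1 : ℝ) / p ≤ 1

/-- [CHc] the main numerical inequality of the chain. -/
def StatementCHc : Prop :=
  ∀ (K A : ℕ) (R : ℝ), ∃ B₀ : ℕ, ∀ B, B₀ ≤ B → ∀ (j : ℕ) (V V' : ℝ),
    (xs B (j + 1) : ℝ) ≤ V → V ≤ ys A B (j + 1) → (xs B j : ℝ) ≤ V' → V' ≤ ys A B j →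
    ((Hs K (j + 1) * ys A B (j + 1) + 1 : ℕ) : ℝ) ^ 2 * ((Hs K j * ys A B j + 1 : ℕ) : ℝ)
      * (((⌈V / V'⌉₊).factorial : ℝ) ^ 2 * ((⌈V / V'⌉₊ : ℝ) + 1) ^ 2)
      * Real.exp (-(2 * al (j + 1) * V) + 2 * al j * V' * ⌈V / V'⌉₊) ≤ Real.exp (-(R * 2 ^ j))

/-- [CHd] the numerical inequality for the first scale. -/
def StatementCHd : Prop :=
  ∀ (K A : ℕ) (δ : ℝ), 0 < δ → ∃ B₀ : ℕ, ∀ B, B₀ ≤ B → ∀ V : ℝ, (xs B 0 : ℝ) ≤ V →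
    ((Hs K 0 * ys A B 0 + 1 : ℕ) : ℝ) ^ 2 * Real.exp (-(2 * al 0 * V)) ≤ δ

/-- [CHe] the choice of the last scale and the numerical inequality for it. -/
def StatementCHe : Prop :=
  ∀ (C : ℝ) (K A B : ℕ), 1 ≤ A → 2 ≤ B → A ≤ B → ∃ X₀ : ℝ, ∀ X : ℝ, X₀ ≤ X → ∃ J : ℕ,
    ((J : ℝ) + 1) * Real.exp (ys A B J + 1) ≤ X ^ (1 / 2 : ℝ) ∧
    ∀ V : ℝ, (xs B J : ℝ) ≤ V → V ≤ ys A B J →
      ((Hs K J * ys A B J + 1 : ℕ) : ℝ) * (C * ((⌈Real.log X / V⌉₊).factorial : ℝ) ^ 2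
        * ((⌈Real.log X / V⌉₊ : ℝ) * (V + 1)) ^ 2
        * Real.exp (2 * al J * V * ⌈Real.log X / V⌉₊)) ≤ X ^ (11 / 25 : ℝ)

end Pool.Agent.H24.MR
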