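import Mathlib
import Pool.Agent.H24.MR.InterfaceCH

/-!
Basic facts for the chain of scales ([CH]) of project T1 on `MP_c59857_nt`.
-/

set_option autoImplicit false

open Finset Filter MeasureTheory

namespace Pool.Agent.H24.MR

theorem norm_nit (n : ℕ) (t : ℝ) : ‖nit n t‖ = 1 := by
  unfold nit
  rw [show -((t * Real.log n : ℝ) : ℂ) * Complex.I = ((-(t * Real.log n) : ℝ) : ℂ) * Complex.I by
    push_cast; ring]
  exact Complex.norm_exp_ofReal_mul_I _

theorem continuous_nit (n : ℕ) : Continuous (nit n) := by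
  unfold nit
  fun_prop

theorem continuous_FX (W b : ℕ) (X : ℝ) : Continuous (FX W b X) := by
  unfold FX
  refine continuous_finsetSum _ fun n _ => ?_
  exact continuous_const.mul (continuous_nit n)

theorem continuous_QP (P : Finset ℕ) : Continuous (QP P) := by
  unfold QP
  refine continuous_finsetSum _ fun n _ => ?_
  exact continuous_const.mul (continuous_nit n)

theorem bdd_FX (W b : ℕ) (X : ℝ) : ∃ B : ℝ, ∀ t, ‖FX W b X t‖ ≤ B := by
  refine ⟨∑ n ∈ Finset.Icc 1 ⌊X * Real.exp 1⌋₊,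
    ‖((fW W b n / n * tent (Real.log n - Real.log X) : ℝ) : ℂ)‖, fun t => ?_⟩
  unfold FX
  refine (norm_sum_le _ _).trans (Finset.sum_le_sum fun n _ => ?_)
  rw [norm_mul, norm_nit, mul_one]

theorem bdd_QP (P : Finset ℕ) : ∃ B : ℝ, ∀ t, ‖QP P t‖ ≤ B := by
  refine ⟨∑ p ∈ P, ‖(1 / (p : ℂ))‖, fun t => ?_⟩
  unfold QP
  refine (norm_sum_le _ _).trans (Finset.sum_le_sum fun n _ => ?_)
  rw [norm_mul, norm_nit, mul_one]

theorem integrable_gauss {T : ℝ} (hT : 0 < T) : Integrable (fun t : ℝ => Real.exp (-(t / T) ^ 2)) := by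
  have h := integrable_exp_neg_mul_sq (b := 1 / T ^ 2) (by positivity)
  refine h.congr ?_
  filter_upwards with t
  congr 1
  field_simp

theorem integrable_mul_gauss {T : ℝ} (hT : 0 < T) {f : ℝ → ℝ} (hf : Continuous f)
    (hb : ∃ B : ℝ, ∀ t, ‖f t‖ ≤ B) : Integrable (fun t : ℝ => f t * Real.exp (-(t / T) ^ 2)) := by
  obtain ⟨B, hB⟩ := hb
  exact (integrable_gauss hT).bdd_mul hf.aestronglyMeasurable (Filter.Eventually.of_forall hB)

/-- class of continuous bounded functions -/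
def CB {E : Type*} [NormedAddCommGroup E] (f : ℝ → E) : Prop :=
  Continuous f ∧ ∃ B : ℝ, ∀ t, ‖f t‖ ≤ B

theorem CB.add {E : Type*} [NormedAddCommGroup E] {f g : ℝ → E} (hf : CB f) (hg : CB g) :
    CB (fun t => f t + g t) := by
  obtain ⟨h1, B1, h2⟩ := hf
  obtain ⟨h3, B2, h4⟩ := hg
  exact ⟨h1.add h3, B1 + B2, fun t => (norm_add_le _ _).trans (add_le_add (h2 t) (h4 t))⟩

theorem CB.neg {E : Type*} [NormedAddCommGroup E] {f : ℝ → E} (hf : CB f) :
    CB (fun t => - f t) := by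
  obtain ⟨h1, B1, h2⟩ := hf
  exact ⟨h1.neg, B1, fun t => by rw [norm_neg]; exact h2 t⟩

theorem CB.mul {E : Type*} [NormedRing E] {f g : ℝ → E} (hf : CB f) (hg : CB g) :
    CB (fun t => f t * g t) := by
  obtain ⟨h1, B1, h2⟩ := hf
  obtain ⟨h3, B2, h4⟩ := hg
  refine ⟨h1.mul h3, |B1| * |B2|, fun t => (norm_mul_le _ _).trans ?_⟩
  have := (h2 t).trans (le_abs_self B1)
  have := (h4 t).trans (le_abs_self B2)
  gcongr

theorem CB.const {E : Type*} [NormedAddCommGroup E] (c : E) : CB (fun _ : ℝ => c) :=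
  ⟨continuous_const, ‖c‖, fun _ => le_rfl⟩

theorem CB.pow {E : Type*} [NormedRing E] {f : ℝ → E} (hf : CB f) (n : ℕ) :
    CB (fun t => f t ^ n) := by
  induction n with
  | zero => simpa using CB.const (1 : E)
  | succ n ih => simpa [pow_succ] using ih.mul hf

theorem CB.sum {E ι : Type*} [NormedAddCommGroup E] (s : Finset ι) {f : ι → ℝ → E}
    (hf : ∀ i ∈ s, CB (f i)) : CB (fun t => ∑ i ∈ s, f i t) := by
  classical
  induction s using Finset.induction_on with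
  | empty => simpa using CB.const (0 : E)
  | insert a s ha ih =>
    simp only [Finset.sum_insert ha]
    exact (hf a (by simp)).add (ih fun i hi => hf i (by simp [hi]))

theorem CB.norm {E : Type*} [NormedAddCommGroup E] {f : ℝ → E} (hf : CB f) :
    CB (fun t => ‖f t‖) := by
  obtain ⟨h1, B1, h2⟩ := hf
  exact ⟨h1.norm, B1, fun t => by simpa using h2 t⟩

theorem CB_FX (W b : ℕ) (X : ℝ) : CB (FX W b X) := ⟨continuous_FX W b X, bdd_FX W b X⟩

theorem CB_QP (P : Finset ℕ) : CB (QP P) := ⟨continuous_QP P, bdd_QP P⟩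

theorem CB.integrable {f : ℝ → ℝ} (hf : CB f) {T : ℝ} (hT : 0 < T) :
    Integrable (fun t : ℝ => f t * Real.exp (-(t / T) ^ 2)) :=
  integrable_mul_gauss hT hf.1 hf.2

/-- `FX` as a sum over the window -/
noncomputable def aX (W b : ℕ) (X : ℝ) (n : ℕ) : ℂ :=
  ((fW W b n / n * tent (Real.log n - Real.log X) : ℝ) : ℂ)

theorem abs_lam_le (n : ℕ) : |lam n| ≤ 1 := by
  unfold lam
  rw [abs_pow]; simp

theorem abs_fW_le (W b n : ℕ) : |fW W b n| ≤ 1 := by
  unfold fW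
  split_ifs
  · exact abs_lam_le n
  · simp

theorem tent_nonneg (u : ℝ) : 0 ≤ tent u := le_max_left _ _

theorem tent_le_one (u : ℝ) : tent u ≤ 1 := by
  unfold tent
  apply max_le zero_le_one
  linarith [abs_nonneg u]

theorem norm_aX_le (W b : ℕ) (X : ℝ) (n : ℕ) : ‖aX W b X n‖ ≤ 1 / n := by
  unfold aX
  rw [Complex.norm_real, Real.norm_eq_abs, abs_mul, abs_div, abs_of_nonneg (tent_nonneg _),
    Nat.abs_cast]
  calc |fW W b n| / n * tent _ ≤ 1 / n * 1 := by
        gcongr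
        · exact tent_nonneg _
        · exact abs_fW_le W b n
        · exact tent_le_one _
    _ = _ := mul_one _

theorem FX_eq_sum (W b : ℕ) {M : ℝ} (hM : 0 < M) (t : ℝ) :
    FX W b M t = ∑ n ∈ Finset.Icc ⌈M / Real.exp 1⌉₊ ⌊M * Real.exp 1⌋₊, aX W b M n * nit n t := by
  unfold FX
  symm
  have hpos : 0 < ⌈M / Real.exp 1⌉₊ := Nat.ceil_pos.2 (by positivity)
  apply Finset.sum_subset
  · apply Finset.Icc_subset_Icc hpos le_rfl
  · intro n hn hn'
    rw [Finset.mem_Icc] at hn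
    have h1 : n < ⌈M / Real.exp 1⌉₊ := by
      by_contra h
      push Not at h
      exact hn' (Finset.mem_Icc.2 ⟨h, hn.2⟩)
    rw [Nat.lt_ceil] at h1
    have hn1 : (0 : ℝ) < n := by exact_mod_cast hn.1
    have h2 : Real.log n < Real.log M - 1 := by
      have := Real.log_lt_log hn1 h1
      rwa [Real.log_div hM.ne' (Real.exp_pos 1).ne', Real.log_exp] at this
    have h3 : tent (Real.log n - Real.log M) = 0 := by
      unfold tent
      apply max_eq_left
      rw [abs_of_neg (by linarith)]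
      linarith
    unfold aX
    rw [h3]; simp

theorem gm_FX (hGM : StatementGM) : ∃ C : ℝ, 0 < C ∧ ∀ (W b : ℕ) (M T : ℝ), 1 ≤ M → 4 ≤ T →
    ∫ t : ℝ, ‖FX W b M t‖ ^ 2 * Real.exp (-(t / T) ^ 2) ≤ C * (1 + T / M) := by
  obtain ⟨C, hC, h⟩ := hGM
  refine ⟨C * Real.exp 1 ^ 4, by positivity, ?_⟩
  intro W b M T hM hT
  have hM0 : 0 < M := by linarith
  have hpos : 0 < ⌈M / Real.exp 1⌉₊ := Nat.ceil_pos.2 (by positivity)
  have h1 := h T (Finset.Icc ⌈M / Real.exp 1⌉₊ ⌊M * Real.exp 1⌋₊) (aX W b M) hT (by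
    intro n hn
    rw [Finset.mem_Icc] at hn
    omega)
  simp_rw [FX_eq_sum W b hM0]
  refine h1.trans ?_
  rw [mul_assoc]
  apply mul_le_mul_of_nonneg_left _ hC.le
  have he : (1 : ℝ) ≤ Real.exp 1 := Real.one_le_exp zero_le_one
  have h2 : ∀ n ∈ Finset.Icc ⌈M / Real.exp 1⌉₊ ⌊M * Real.exp 1⌋₊,
      ‖aX W b M n‖ ^ 2 * (T + n) ≤ (Real.exp 1 / M) ^ 2 * (T + Real.exp 1 * M) := by
    intro n hn
    rw [Finset.mem_Icc] at hn
    have hn0 : (0 : ℝ) < n := by exact_mod_cast (lt_of_lt_of_le hpos hn.1)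
    have hn1 : M / Real.exp 1 ≤ n := Nat.ceil_le.1 hn.1
    have hn2 : (n : ℝ) ≤ M * Real.exp 1 := (Nat.le_floor_iff (by positivity)).1 hn.2
    have h3 : ‖aX W b M n‖ ≤ Real.exp 1 / M := by
      refine (norm_aX_le W b M n).trans ?_
      rw [div_le_div_iff₀ hn0 hM0]
      rw [div_le_iff₀ (Real.exp_pos 1)] at hn1
      linarith
    gcongr
    linarith
  refine (Finset.sum_le_sum h2).trans ?_
  rw [Finset.sum_const, nsmul_eq_mul]
  have h4 : ((Finset.Icc ⌈M / Real.exp 1⌉₊ ⌊M * Real.exp 1⌋₊).card : ℝ) ≤ M * Real.exp 1 := by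
    have : (Finset.Icc ⌈M / Real.exp 1⌉₊ ⌊M * Real.exp 1⌋₊).card ≤ ⌊M * Real.exp 1⌋₊ := by
      rw [Nat.card_Icc]; omega
    calc _ ≤ ((⌊M * Real.exp 1⌋₊ : ℕ) : ℝ) := by exact_mod_cast this
      _ ≤ _ := Nat.floor_le (by positivity)
  calc _ ≤ M * Real.exp 1 * ((Real.exp 1 / M) ^ 2 * (T + Real.exp 1 * M)) := by gcongr
    _ = Real.exp 1 ^ 3 * (T / M) + Real.exp 1 ^ 4 * 1 := by field_simp
    _ ≤ Real.exp 1 ^ 4 * (T / M) + Real.exp 1 ^ 4 * 1 := by
        have : 0 ≤ T / M := by positivity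
        gcongr
        norm_num
    _ = _ := by ring

end Pool.Agent.H24.MR
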