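import Mathlib
import Pool.Agent.H24.MR.ChainBasic

/-!
The chain of scales ([CH]) of project T1 on `MP_c59857_nt`: pointwise inequalities and the
integral bound for one scale.
-/

set_option autoImplicit false

open Finset Filter MeasureTheory

namespace Pool.Agent.H24.MR

theorem norm_sum_sq_le {ι : Type*} (s : Finset ι) (f : ι → ℂ) :
    ‖∑ i ∈ s, f i‖ ^ 2 ≤ s.card * ∑ i ∈ s, ‖f i‖ ^ 2 := by
  calc ‖∑ i ∈ s, f i‖ ^ 2 ≤ (∑ i ∈ s, ‖f i‖) ^ 2 := by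
        gcongr; exact norm_sum_le _ _
    _ ≤ _ := sq_sum_le_card_mul_sum_sq

/-- pointwise inequality, first scale -/
theorem pw1 (I : Finset ℕ) (L α : ℝ) (hL : 1 ≤ L) (V : ℕ → ℝ) (Q Fv : ℕ → ℂ) (F E : ℂ)
    (hF : F = -(1 / L : ℂ) * ∑ v ∈ I, Q v * Fv v + E)
    (hQ : ∀ v ∈ I, ‖Q v‖ ≤ Real.exp (-(α * V v))) :
    ‖F‖ ^ 2 ≤ 2 * (I.card * ∑ v ∈ I, Real.exp (-(2 * α * V v)) * ‖Fv v‖ ^ 2) + 2 * ‖E‖ ^ 2 := by
  have h1 : ‖F‖ ≤ ‖∑ v ∈ I, Q v * Fv v‖ + ‖E‖ := by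
    rw [hF]
    refine (norm_add_le _ _).trans (add_le_add_left ?_ _)
    rw [norm_mul, norm_neg, norm_div, norm_one, Complex.norm_real, Real.norm_eq_abs,
      abs_of_pos (by linarith : (0 : ℝ) < L)]
    calc 1 / L * ‖∑ v ∈ I, Q v * Fv v‖ ≤ 1 * ‖∑ v ∈ I, Q v * Fv v‖ := by
          gcongr
          rw [div_le_one (by linarith)]
          exact hL
      _ = _ := one_mul _
  have h2 : ‖∑ v ∈ I, Q v * Fv v‖ ^ 2
      ≤ I.card * ∑ v ∈ I, Real.exp (-(2 * α * V v)) * ‖Fv v‖ ^ 2 := by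
    refine (norm_sum_sq_le I _).trans ?_
    gcongr with v hv
    rw [norm_mul, mul_pow]
    have : Real.exp (-(2 * α * V v)) = Real.exp (-(α * V v)) ^ 2 := by
      rw [← Real.exp_nat_mul]; congr 1; push_cast; ring
    rw [this]
    gcongr
    exact hQ v hv
  have h3 : ‖F‖ ^ 2 ≤ (‖∑ v ∈ I, Q v * Fv v‖ + ‖E‖) ^ 2 := by gcongr
  nlinarith [sq_nonneg (‖∑ v ∈ I, Q v * Fv v‖ - ‖E‖)]

/-- pointwise inequality, later scales -/
theorem pw2 (I I' : Finset ℕ) (L α α' : ℝ) (hL : 1 ≤ L) (V V' : ℕ → ℝ) (Q Q' Fv : ℕ → ℂ)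
    (F E : ℂ) (l : ℕ → ℕ → ℕ)
    (hF : F = -(1 / L : ℂ) * ∑ v ∈ I, Q v * Fv v + E)
    (hQ : ∀ v ∈ I, ‖Q v‖ ≤ Real.exp (-(α * V v)))
    (hQ' : ∃ v' ∈ I', Real.exp (-(α' * V' v')) < ‖Q' v'‖) :
    ‖F‖ ^ 2 ≤ 2 * (I.card * ∑ v ∈ I, ∑ v' ∈ I',
      Real.exp (-(2 * α * V v) + 2 * α' * V' v' * l v v') * ‖Q' v' ^ l v v' * Fv v‖ ^ 2)
      + 2 * ‖E‖ ^ 2 := by
  refine (pw1 I L α hL V Q Fv F E hF hQ).trans ?_
  gcongr with v hv
  obtain ⟨w, hw, hw2⟩ := hQ'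
  have h0 : ∀ v' ∈ I', 0 ≤ Real.exp (-(2 * α * V v) + 2 * α' * V' v' * l v v')
      * ‖Q' v' ^ l v v' * Fv v‖ ^ 2 := fun v' _ => by positivity
  refine le_trans ?_ (Finset.single_le_sum h0 hw)
  rw [Real.exp_add, norm_mul, norm_pow, mul_pow]
  rw [mul_assoc (Real.exp (-(2 * α * V v)))]
  apply mul_le_mul_of_nonneg_left _ (Real.exp_pos _).le
  rw [← mul_assoc]
  have h1 : 1 ≤ Real.exp (2 * α' * V' w * l v w) * (‖Q' w‖ ^ l v w) ^ 2 := by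
    have e1 : Real.exp (2 * α' * V' w * l v w) * (‖Q' w‖ ^ l v w) ^ 2
        = (Real.exp (α' * V' w) * ‖Q' w‖) ^ (2 * l v w) := by
      rw [mul_pow, ← Real.exp_nat_mul]
      congr 1
      · congr 1; push_cast; ring
      · rw [← pow_mul, mul_comm]
    rw [e1]
    apply one_le_pow₀
    calc (1 : ℝ) = Real.exp (α' * V' w) * Real.exp (-(α' * V' w)) := by
          rw [← Real.exp_add]; simp
      _ ≤ _ := by gcongr
  calc ‖Fv v‖ ^ 2 = 1 * ‖Fv v‖ ^ 2 := (one_mul _).symm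
    _ ≤ _ := by gcongr

/-- Gaussian mean -/
noncomputable def Jg (T : ℝ) (f : ℝ → ℝ) : ℝ := ∫ t : ℝ, f t * Real.exp (-(t / T) ^ 2)

theorem Jg_add {T : ℝ} (hT : 0 < T) {f g : ℝ → ℝ} (hf : CB f) (hg : CB g) :
    Jg T (fun t => f t + g t) = Jg T f + Jg T g := by
  unfold Jg
  rw [← integral_add (hf.integrable hT) (hg.integrable hT)]
  simp_rw [add_mul]

theorem Jg_const_mul (T c : ℝ) (f : ℝ → ℝ) : Jg T (fun t => c * f t) = c * Jg T f := by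
  unfold Jg
  rw [← integral_const_mul]
  simp_rw [mul_assoc]

theorem Jg_sum {ι : Type*} {T : ℝ} (hT : 0 < T) (s : Finset ι) {f : ι → ℝ → ℝ}
    (hf : ∀ i ∈ s, CB (f i)) : Jg T (fun t => ∑ i ∈ s, f i t) = ∑ i ∈ s, Jg T (f i) := by
  unfold Jg
  rw [← integral_finsetSum s (fun i hi => (hf i hi).integrable hT)]
  simp_rw [Finset.sum_mul]

theorem Jg_nonneg (T : ℝ) {f : ℝ → ℝ} (hf : ∀ t, 0 ≤ f t) : 0 ≤ Jg T f :=
  integral_nonneg fun t => mul_nonneg (hf t) (Real.exp_pos _).le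

theorem sum_bd1 (I : Finset ℕ) (N : ℕ) (x : ℕ → ℝ) (δ : ℝ) (_hx : ∀ v ∈ I, 0 ≤ x v)
    (hI : I.card ≤ N) (hδ : 0 ≤ δ) (h : ∀ v ∈ I, (N : ℝ) ^ 2 * x v ≤ δ) :
    (I.card : ℝ) * ∑ v ∈ I, x v ≤ δ := by
  rcases Nat.eq_zero_or_pos I.card with h0 | h0
  · rw [h0]; simpa using hδ
  have hN : (0 : ℝ) < N := by exact_mod_cast lt_of_lt_of_le h0 hI
  have hIN : (I.card : ℝ) ≤ N := by exact_mod_cast hI
  have h1 : ∑ v ∈ I, x v ≤ I.card * (δ / N ^ 2) := by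
    rw [← nsmul_eq_mul]
    apply Finset.sum_le_card_nsmul
    intro v hv
    rw [le_div_iff₀ (by positivity)]
    linarith [h v hv]
  calc (I.card : ℝ) * ∑ v ∈ I, x v ≤ I.card * (I.card * (δ / N ^ 2)) := by gcongr
    _ ≤ N * (N * (δ / N ^ 2)) := by gcongr
    _ = δ := by field_simp

theorem sum_bd2 (I I' : Finset ℕ) (N N' : ℕ) (x : ℕ → ℕ → ℝ) (δ : ℝ)
    (hx : ∀ v ∈ I, ∀ v' ∈ I', 0 ≤ x v v')
    (hI : I.card ≤ N) (hI' : I'.card ≤ N') (hδ : 0 ≤ δ)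
    (h : ∀ v ∈ I, ∀ v' ∈ I', (N : ℝ) ^ 2 * N' * x v v' ≤ δ) :
    (I.card : ℝ) * ∑ v ∈ I, ∑ v' ∈ I', x v v' ≤ δ := by
  apply sum_bd1 I N _ δ (fun v hv => Finset.sum_nonneg (hx v hv)) hI hδ
  intro v hv
  rcases Nat.eq_zero_or_pos I'.card with h0 | h0
  · rw [Finset.card_eq_zero] at h0
    rw [h0]; simpa using hδ
  have hN : (0 : ℝ) < N' := by exact_mod_cast lt_of_lt_of_le h0 hI'
  have hIN : (I'.card : ℝ) ≤ N' := by exact_mod_cast hI'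
  rw [Finset.mul_sum]
  have h1 : ∑ v' ∈ I', (N : ℝ) ^ 2 * x v v' ≤ I'.card * (δ / N') := by
    rw [← nsmul_eq_mul]
    apply Finset.sum_le_card_nsmul
    intro v' hv'
    rw [le_div_iff₀ hN]
    nlinarith [h v hv v' hv']
  calc _ ≤ _ := h1
    _ ≤ N' * (δ / N') := by gcongr
    _ = δ := by field_simp

/-- the polynomial of the cell `v` at scale `j` -/
noncomputable def Qc (W K A B j v : ℕ) (t : ℝ) : ℂ :=
  QP ((Ps W A B j).filter (fun p => cell (Hs K j) p = v)) t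

/-- the cells at scale `j` -/
noncomputable def Is (W K A B j : ℕ) : Finset ℕ := (Ps W A B j).image (cell (Hs K j))

/-- position of a cell -/
noncomputable def Vc (K j v : ℕ) : ℝ := (v : ℝ) / Hs K j

/-- cofactor -/
noncomputable def Fc (W b : ℕ) (X : ℝ) (K j v : ℕ) (t : ℝ) : ℂ :=
  FX W b (X * Real.exp (-(v : ℝ) / Hs K j)) t

/-- dominating functions -/
noncomputable def Dl (W b K A B : ℕ) (X : ℝ) (E : ℕ → ℝ → ℂ) : ℕ → ℝ → ℝ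
  | 0, t => 2 * ((Is W K A B 0).card * ∑ v ∈ Is W K A B 0,
      Real.exp (-(2 * al 0 * Vc K 0 v)) * ‖Fc W b X K 0 v t‖ ^ 2) + 2 * ‖E 0 t‖ ^ 2
  | j + 1, t => 2 * ((Is W K A B (j + 1)).card * ∑ v ∈ Is W K A B (j + 1), ∑ v' ∈ Is W K A B j,
      Real.exp (-(2 * al (j + 1) * Vc K (j + 1) v) + 2 * al j * Vc K j v'
          * ⌈Vc K (j + 1) v / Vc K j v'⌉₊)
        * ‖Qc W K A B j v' t ^ ⌈Vc K (j + 1) v / Vc K j v'⌉₊ * Fc W b X K (j + 1) v t‖ ^ 2)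
      + 2 * ‖E (j + 1) t‖ ^ 2

theorem Dl_nonneg (W b K A B : ℕ) (X : ℝ) (E : ℕ → ℝ → ℂ) (j : ℕ) (t : ℝ) :
    0 ≤ Dl W b K A B X E j t := by
  cases j with
  | zero => unfold Dl; positivity
  | succ j => unfold Dl; positivity

/-- the pointwise domination -/
theorem dom (W b K A B : ℕ) (X : ℝ) (E : ℕ → ℝ → ℂ) (L : ℕ → ℝ) (J : ℕ)
    (hL : ∀ j ≤ J, 1 ≤ L j) (t : ℝ)
    (hE : ∀ j ≤ J, FX W b X t = -(1 / L j : ℂ) * ∑ v ∈ Is W K A B j,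
      Qc W K A B j v t * Fc W b X K j v t + E j t) :
    ∀ j ≤ J, (∃ i ≤ j, ‖FX W b X t‖ ^ 2 ≤ Dl W b K A B X E i t) ∨
      (∃ v ∈ Is W K A B j, Real.exp (-(al j * Vc K j v)) < ‖Qc W K A B j v t‖) := by
  intro j
  induction j with
  | zero =>
    intro h0
    by_cases h : ∃ v ∈ Is W K A B 0, Real.exp (-(al 0 * Vc K 0 v)) < ‖Qc W K A B 0 v t‖
    · exact Or.inr h
    · left
      push Not at h
      refine ⟨0, le_rfl, ?_⟩
      exact pw1 (Is W K A B 0) (L 0) (al 0) (hL 0 h0) (Vc K 0) (fun v => Qc W K A B 0 v t)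
        (fun v => Fc W b X K 0 v t) _ _ (hE 0 h0) h
  | succ j ih =>
    intro hj
    by_cases h : ∃ v ∈ Is W K A B (j + 1),
      Real.exp (-(al (j + 1) * Vc K (j + 1) v)) < ‖Qc W K A B (j + 1) v t‖
    · exact Or.inr h
    · left
      push Not at h
      rcases ih (by omega) with ⟨i, hi, h2⟩ | h2
      · exact ⟨i, by omega, h2⟩
      · refine ⟨j + 1, le_rfl, ?_⟩
        exact pw2 (Is W K A B (j + 1)) (Is W K A B j) (L (j + 1)) (al (j + 1)) (al j)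
          (hL (j + 1) hj) (Vc K (j + 1)) (Vc K j) (fun v => Qc W K A B (j + 1) v t)
          (fun v => Qc W K A B j v t) (fun v => Fc W b X K (j + 1) v t) _ _
          (fun v v' => ⌈Vc K (j + 1) v / Vc K j v'⌉₊) (hE (j + 1) hj) h h2

theorem CB_Qc (W K A B j v : ℕ) : CB (Qc W K A B j v) := CB_QP _

theorem CB_Fc (W b : ℕ) (X : ℝ) (K j v : ℕ) : CB (Fc W b X K j v) := CB_FX _ _ _

theorem CB_Dl (W b K A B : ℕ) (X : ℝ) (E : ℕ → ℝ → ℂ) (j : ℕ) (hE : CB (E j)) :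
    CB (Dl W b K A B X E j) := by
  cases j with
  | zero =>
    refine CB.add ?_ ((CB.const (2 : ℝ)).mul (hE.norm.pow 2))
    refine (CB.const (2 : ℝ)).mul ((CB.const _).mul (CB.sum _ fun v hv => ?_))
    exact (CB.const _).mul ((CB_Fc W b X K 0 v).norm.pow 2)
  | succ j =>
    refine CB.add ?_ ((CB.const (2 : ℝ)).mul (hE.norm.pow 2))
    refine (CB.const (2 : ℝ)).mul ((CB.const _).mul (CB.sum _ fun v hv => CB.sum _ fun v' hv' => ?_))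
    exact (CB.const _).mul ((((CB_Qc W K A B j v').pow _).mul
      (CB_Fc W b X K (j + 1) v)).norm.pow 2)

theorem Jg_Dl_zero (C1 : ℝ) (hC1 : 0 ≤ C1) (W b K A B : ℕ) (X T δ η : ℝ) (E : ℕ → ℝ → ℂ)
    (hE : CB (E 0)) (hT : 0 < T) (hδ : 0 ≤ δ)
    (hF : ∀ v ∈ Is W K A B 0, Jg T (fun t => ‖Fc W b X K 0 v t‖ ^ 2) ≤ C1)
    (hI : (Is W K A B 0).card ≤ Hs K 0 * ys A B 0 + 1)
    (hd : ∀ v ∈ Is W K A B 0, ((Hs K 0 * ys A B 0 + 1 : ℕ) : ℝ) ^ 2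
      * Real.exp (-(2 * al 0 * Vc K 0 v)) ≤ δ)
    (hEb : Jg T (fun t => ‖E 0 t‖ ^ 2) ≤ η) :
    Jg T (Dl W b K A B X E 0) ≤ 2 * (C1 * δ) + 2 * η := by
  have e1 : Jg T (Dl W b K A B X E 0) = 2 * ((Is W K A B 0).card * ∑ v ∈ Is W K A B 0,
      Real.exp (-(2 * al 0 * Vc K 0 v)) * Jg T (fun t => ‖Fc W b X K 0 v t‖ ^ 2))
      + 2 * Jg T (fun t => ‖E 0 t‖ ^ 2) := by
    have hcb : ∀ v ∈ Is W K A B 0, CB (fun t => Real.exp (-(2 * al 0 * Vc K 0 v))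
        * ‖Fc W b X K 0 v t‖ ^ 2) := fun v _ =>
      (CB.const _).mul ((CB_Fc W b X K 0 v).norm.pow 2)
    show Jg T (fun t => 2 * ((Is W K A B 0).card * ∑ v ∈ Is W K A B 0,
      Real.exp (-(2 * al 0 * Vc K 0 v)) * ‖Fc W b X K 0 v t‖ ^ 2) + 2 * ‖E 0 t‖ ^ 2) = _
    rw [Jg_add hT ((CB.const (2 : ℝ)).mul ((CB.const _).mul (CB.sum _ hcb)))
      ((CB.const (2 : ℝ)).mul (hE.norm.pow 2)), Jg_const_mul, Jg_const_mul, Jg_const_mul,
      Jg_sum hT _ hcb]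
    simp_rw [Jg_const_mul]
  rw [e1]
  have h2 := sum_bd1 (Is W K A B 0) (Hs K 0 * ys A B 0 + 1)
    (fun v => Real.exp (-(2 * al 0 * Vc K 0 v)) * Jg T (fun t => ‖Fc W b X K 0 v t‖ ^ 2))
    (C1 * δ) (fun v _ => mul_nonneg (Real.exp_pos _).le (Jg_nonneg T fun t => by positivity)) hI
    (by positivity) (by
      intro v hv
      calc _ = (((Hs K 0 * ys A B 0 + 1 : ℕ) : ℝ) ^ 2 * Real.exp (-(2 * al 0 * Vc K 0 v)))
            * Jg T (fun t => ‖Fc W b X K 0 v t‖ ^ 2) := by ring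
        _ ≤ δ * C1 := by
            gcongr
            · exact Jg_nonneg T fun t => by positivity
            · exact hd v hv
            · exact hF v hv
        _ = _ := mul_comm _ _)
  linarith

theorem Jg_Dl_succ (C3 : ℝ) (W b K A B j : ℕ) (X T δ η : ℝ) (E : ℕ → ℝ → ℂ)
    (hE : CB (E (j + 1))) (hT : 0 < T) (hδ : 0 ≤ δ) (hC3 : 0 ≤ C3)
    (hF : ∀ v ∈ Is W K A B (j + 1), ∀ v' ∈ Is W K A B j,
      Jg T (fun t => ‖Qc W K A B j v' t ^ ⌈Vc K (j + 1) v / Vc K j v'⌉₊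
        * Fc W b X K (j + 1) v t‖ ^ 2)
      ≤ C3 * ((⌈Vc K (j + 1) v / Vc K j v'⌉₊).factorial : ℝ) ^ 2
        * ((⌈Vc K (j + 1) v / Vc K j v'⌉₊ : ℝ) + 1) ^ 2)
    (hI : (Is W K A B (j + 1)).card ≤ Hs K (j + 1) * ys A B (j + 1) + 1)
    (hI' : (Is W K A B j).card ≤ Hs K j * ys A B j + 1)
    (hd : ∀ v ∈ Is W K A B (j + 1), ∀ v' ∈ Is W K A B j,
      ((Hs K (j + 1) * ys A B (j + 1) + 1 : ℕ) : ℝ) ^ 2 * ((Hs K j * ys A B j + 1 : ℕ) : ℝ)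
      * (((⌈Vc K (j + 1) v / Vc K j v'⌉₊).factorial : ℝ) ^ 2
        * ((⌈Vc K (j + 1) v / Vc K j v'⌉₊ : ℝ) + 1) ^ 2)
      * Real.exp (-(2 * al (j + 1) * Vc K (j + 1) v)
        + 2 * al j * Vc K j v' * ⌈Vc K (j + 1) v / Vc K j v'⌉₊) ≤ δ)
    (hEb : Jg T (fun t => ‖E (j + 1) t‖ ^ 2) ≤ η) :
    Jg T (Dl W b K A B X E (j + 1)) ≤ 2 * (C3 * δ) + 2 * η := by
  set l : ℕ → ℕ → ℕ := fun v v' => ⌈Vc K (j + 1) v / Vc K j v'⌉₊ with hl
  have e1 : Jg T (Dl W b K A B X E (j + 1)) = 2 * ((Is W K A B (j + 1)).card *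
      ∑ v ∈ Is W K A B (j + 1), ∑ v' ∈ Is W K A B j,
      Real.exp (-(2 * al (j + 1) * Vc K (j + 1) v) + 2 * al j * Vc K j v' * l v v')
        * Jg T (fun t => ‖Qc W K A B j v' t ^ l v v' * Fc W b X K (j + 1) v t‖ ^ 2))
      + 2 * Jg T (fun t => ‖E (j + 1) t‖ ^ 2) := by
    have hcb : ∀ v ∈ Is W K A B (j + 1), ∀ v' ∈ Is W K A B j, CB (fun t =>
        Real.exp (-(2 * al (j + 1) * Vc K (j + 1) v) + 2 * al j * Vc K j v' * l v v')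
          * ‖Qc W K A B j v' t ^ l v v' * Fc W b X K (j + 1) v t‖ ^ 2) := fun v _ v' _ =>
      (CB.const _).mul ((((CB_Qc W K A B j v').pow _).mul (CB_Fc W b X K (j + 1) v)).norm.pow 2)
    have hcb2 : ∀ v ∈ Is W K A B (j + 1), CB (fun t => ∑ v' ∈ Is W K A B j,
        Real.exp (-(2 * al (j + 1) * Vc K (j + 1) v) + 2 * al j * Vc K j v' * l v v')
          * ‖Qc W K A B j v' t ^ l v v' * Fc W b X K (j + 1) v t‖ ^ 2) := fun v hv =>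
      CB.sum _ (hcb v hv)
    show Jg T (fun t => 2 * ((Is W K A B (j + 1)).card * ∑ v ∈ Is W K A B (j + 1),
      ∑ v' ∈ Is W K A B j,
      Real.exp (-(2 * al (j + 1) * Vc K (j + 1) v) + 2 * al j * Vc K j v' * l v v')
        * ‖Qc W K A B j v' t ^ l v v' * Fc W b X K (j + 1) v t‖ ^ 2) + 2 * ‖E (j + 1) t‖ ^ 2) = _
    rw [Jg_add hT ((CB.const (2 : ℝ)).mul ((CB.const _).mul (CB.sum _ hcb2)))
      ((CB.const (2 : ℝ)).mul (hE.norm.pow 2)), Jg_const_mul, Jg_const_mul, Jg_const_mul,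
      Jg_sum hT _ hcb2]
    congr 3
    refine Finset.sum_congr rfl fun v hv => ?_
    rw [Jg_sum hT _ (hcb v hv)]
    simp_rw [Jg_const_mul]
  rw [e1]
  have h2 := sum_bd2 (Is W K A B (j + 1)) (Is W K A B j) (Hs K (j + 1) * ys A B (j + 1) + 1)
    (Hs K j * ys A B j + 1)
    (fun v v' => Real.exp (-(2 * al (j + 1) * Vc K (j + 1) v) + 2 * al j * Vc K j v' * l v v')
        * Jg T (fun t => ‖Qc W K A B j v' t ^ l v v' * Fc W b X K (j + 1) v t‖ ^ 2))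
    (C3 * δ) (fun v _ v' _ => mul_nonneg (Real.exp_pos _).le (Jg_nonneg T fun t => by positivity))
    hI hI' (by positivity) (by
      intro v hv v' hv'
      calc _ ≤ ((Hs K (j + 1) * ys A B (j + 1) + 1 : ℕ) : ℝ) ^ 2
            * ((Hs K j * ys A B j + 1 : ℕ) : ℝ)
            * (Real.exp (-(2 * al (j + 1) * Vc K (j + 1) v) + 2 * al j * Vc K j v' * l v v')
              * (C3 * ((l v v').factorial : ℝ) ^ 2 * ((l v v' : ℝ) + 1) ^ 2)) := by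
            gcongr
            exact hF v hv v' hv'
        _ = C3 * (((Hs K (j + 1) * ys A B (j + 1) + 1 : ℕ) : ℝ) ^ 2
            * ((Hs K j * ys A B j + 1 : ℕ) : ℝ)
            * (((l v v').factorial : ℝ) ^ 2 * ((l v v' : ℝ) + 1) ^ 2)
            * Real.exp (-(2 * al (j + 1) * Vc K (j + 1) v) + 2 * al j * Vc K j v' * l v v')) := by
            ring
        _ ≤ C3 * δ := by
            gcongr
            exact hd v hv v' hv')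
  linarith

end Pool.Agent.H24.MR
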