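import Mathlib
import Pool.Agent.H24.MR.Chain

/-!
The chain of scales ([CH]) of project T1 on `MP_c59857_nt`: assembly.
-/

set_option autoImplicit false

open Finset Filter MeasureTheory

namespace Pool.Agent.H24.MR

theorem al_nonneg (j : ℕ) : 0 ≤ al j := by
  unfold al
  have h : (1 : ℝ) ≤ 2 ^ j := one_le_pow₀ (by norm_num)
  have : 1 / 10 / 2 ^ j ≤ (1 / 10 : ℝ) := by
    rw [div_le_iff₀ (by positivity)]; nlinarith
  linarith

theorem ys_mono {A B : ℕ} (hA : 1 ≤ A) (hB : 1 ≤ B) {i j : ℕ} (h : i ≤ j) : ys A B i ≤ ys A B j := by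
  unfold ys
  exact Nat.pow_le_pow_right (Nat.mul_pos hA hB) (Nat.pow_le_pow_right (by norm_num) h)

theorem card_Ps_le (W A B j : ℕ) : ((Ps W A B j).card : ℝ) ≤ Real.exp (ys A B j) := by
  unfold Ps
  calc _ ≤ (((Finset.Ioc ⌊Real.exp (xs B j)⌋₊ ⌊Real.exp (ys A B j)⌋₊).card : ℕ) : ℝ) := by
        exact_mod_cast Finset.card_filter_le _ _
    _ ≤ ((⌊Real.exp (ys A B j)⌋₊ : ℕ) : ℝ) := by
        rw [Nat.card_Ioc]; exact_mod_cast Nat.sub_le _ _
    _ ≤ _ := Nat.floor_le (Real.exp_pos _).le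

theorem mem_Ps {W A B j p : ℕ} (h : p ∈ Ps W A B j) :
    p.Prime ∧ p ≡ 1 [MOD W] ∧ (p : ℝ) ≤ Real.exp (ys A B j) := by
  unfold Ps at h
  rw [Finset.mem_filter, Finset.mem_Ioc] at h
  exact ⟨h.2.1, h.2.2, (Nat.le_floor_iff (Real.exp_pos _).le).1 h.1.2⟩

/-- the set of unit intervals meeting the last bad set -/
theorem bad_count (hLV : StatementLV) (hCHb : StatementCHb) : ∃ C : ℝ, 0 < C ∧
    ∀ (W K A B J : ℕ) (X : ℝ), 1 ≤ A → 1 ≤ B → 2 ≤ K → 4 ≤ X →
    (∀ V : ℝ, (xs B J : ℝ) ≤ V → V ≤ ys A B J →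
      ((Hs K J * ys A B J + 1 : ℕ) : ℝ) * (C * ((⌈Real.log X / V⌉₊).factorial : ℝ) ^ 2
        * ((⌈Real.log X / V⌉₊ : ℝ) * (V + 1)) ^ 2
        * Real.exp (2 * al J * V * ⌈Real.log X / V⌉₊)) ≤ X ^ (11 / 25 : ℝ)) →
    ∃ S : Finset ℤ, (∀ k ∈ S, |(k : ℝ)| ≤ X) ∧ (S.card : ℝ) ≤ X ^ (11 / 25 : ℝ) ∧
      ∀ t : ℝ, |((⌊t⌋ : ℤ) : ℝ)| ≤ X →
        (∃ v ∈ Is W K A B J, Real.exp (-(al J * Vc K J v)) < ‖Qc W K A B J v t‖) → ⌊t⌋ ∈ S := by
  obtain ⟨C, hC, h⟩ := hLV
  refine ⟨C, hC, ?_⟩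
  intro W K A B J X hA hB hK hX hnum
  classical
  obtain ⟨hcard, hcell⟩ := hCHb W A B K J hA hB hK
  set Sv : ℕ → Finset ℤ := fun v => (Finset.Icc (-⌊X⌋) ⌊X⌋).filter
    (fun k => ∃ t ∈ Set.Icc (k : ℝ) (k + 1), Real.exp (-(al J * Vc K J v)) ≤ ‖Qc W K A B J v t‖)
    with hSv
  have hk : ∀ k ∈ Finset.Icc (-⌊X⌋) ⌊X⌋, |(k : ℝ)| ≤ X := by
    intro k hk
    rw [Finset.mem_Icc] at hk
    rw [abs_le]
    have h1 : (k : ℝ) ≤ ⌊X⌋ := by exact_mod_cast hk.2
    have h2 : -((⌊X⌋ : ℤ) : ℝ) ≤ k := by exact_mod_cast hk.1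
    have h3 := Int.floor_le X
    constructor <;> linarith
  have hX1 : 0 < Real.log X := Real.log_pos (by linarith)
  refine ⟨(Is W K A B J).biUnion Sv, ?_, ?_, ?_⟩
  · intro k hk'
    rw [Finset.mem_biUnion] at hk'
    obtain ⟨v, _, hv⟩ := hk'
    exact hk k (Finset.mem_filter.1 hv).1
  · have hN : (0 : ℝ) < ((Hs K J * ys A B J + 1 : ℕ) : ℝ) := by positivity
    have h1 : ∀ v ∈ Is W K A B J, ((Sv v).card : ℝ) ≤ X ^ (11 / 25 : ℝ)
        / ((Hs K J * ys A B J + 1 : ℕ) : ℝ) := by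
      intro v hv
      obtain ⟨hv1, hv2, hv3, hv4⟩ := hcell v hv
      have hVpos : (0 : ℝ) < (v : ℝ) / Hs K J := by
        refine lt_of_lt_of_le ?_ hv1
        unfold xs
        exact_mod_cast Nat.pow_pos hB
      rw [le_div_iff₀ hN, mul_comm]
      refine le_trans ?_ (hnum ((v : ℝ) / Hs K J) hv1 hv2)
      gcongr
      have hl : 1 ≤ ⌈Real.log X / ((v : ℝ) / Hs K J)⌉₊ := Nat.ceil_pos.2 (by positivity)
      have h2 := h ((Ps W A B J).filter (fun p => cell (Hs K J) p = v)) ((v : ℝ) / Hs K J) X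
        (Real.exp (-(al J * Vc K J v))) ⌈Real.log X / ((v : ℝ) / Hs K J)⌉₊ (Sv v) hVpos.le hX
        (fun p hp => ⟨(mem_Ps (Finset.mem_filter.1 hp).1).1, hv3 p hp⟩) hv4 (by
          rw [← Real.log_le_iff_le_exp (by linarith)]
          have := Nat.le_ceil (Real.log X / ((v : ℝ) / Hs K J))
          rwa [div_le_iff₀ hVpos] at this) (Real.exp_pos _) hl (by
          intro k hk'
          rw [hSv, Finset.mem_filter] at hk'
          exact ⟨(hk k hk'.1).trans (by linarith), hk'.2⟩)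
      refine h2.trans (le_of_eq ?_)
      congr 1
      rw [← Real.exp_neg, ← Real.exp_nat_mul]
      congr 1
      unfold Vc
      push_cast; ring
    calc (((Is W K A B J).biUnion Sv).card : ℝ) ≤ ((∑ v ∈ Is W K A B J, (Sv v).card : ℕ) : ℝ) := by
          exact_mod_cast Finset.card_biUnion_le
      _ = ∑ v ∈ Is W K A B J, ((Sv v).card : ℝ) := by push_cast; rfl
      _ ≤ (Is W K A B J).card • (X ^ (11 / 25 : ℝ) / ((Hs K J * ys A B J + 1 : ℕ) : ℝ)) :=
          Finset.sum_le_card_nsmul _ _ _ h1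
      _ ≤ ((Hs K J * ys A B J + 1 : ℕ) : ℝ)
          * (X ^ (11 / 25 : ℝ) / ((Hs K J * ys A B J + 1 : ℕ) : ℝ)) := by
          rw [nsmul_eq_mul]
          gcongr
          exact hcard
      _ = _ := by field_simp
  · intro t ht ⟨v, hv, hv2⟩
    rw [Finset.mem_biUnion]
    refine ⟨v, hv, ?_⟩
    rw [hSv, Finset.mem_filter, Finset.mem_Icc]
    rw [abs_le] at ht
    refine ⟨⟨?_, Int.le_floor.2 ht.2⟩, t, ⟨Int.floor_le t, (Int.lt_floor_add_one t).le⟩, hv2.le⟩
    have : -⌊t⌋ ≤ ⌊X⌋ := Int.le_floor.2 (by push_cast; linarith)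
    linarith

theorem gauss_half (t T : ℝ) : (t / (Real.sqrt 2 * T)) ^ 2 = (t / T) ^ 2 / 2 := by
  rw [mul_comm, ← div_div, div_pow (t / T), Real.sq_sqrt (by norm_num)]

theorem Jg_eq (T : ℝ) (f : ℝ → ℝ) : Jg T f = ∫ t : ℝ, f t * Real.exp (-(t / T) ^ 2) := rfl

theorem ch (hGM : StatementGM) (hTKD : StatementTKD) (hMO : StatementMO) (hLV : StatementLV)
    (hCHa : StatementCHa) (hCHb : StatementCHb) (hCHc : StatementCHc) (hCHd : StatementCHd)
    (hCHe : StatementCHe) : StatementCH := by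
  intro W b ε hW _ hε
  obtain ⟨C1, hC1, hF⟩ := gm_FX hGM
  obtain ⟨C2, hC2, hTK⟩ := hTKD
  obtain ⟨C3, hC3, hM⟩ := hMO
  obtain ⟨C4, hC4, hbad⟩ := bad_count hLV hCHb
  -- constants
  set K : ℕ := max 2 ⌈40 * C2 / ε⌉₊ with hK
  have hK2 : 2 ≤ K := le_max_left _ _
  have hK3 : 40 * C2 / ε ≤ K := (Nat.le_ceil _).trans (by exact_mod_cast le_max_right _ _)
  set δ : ℝ := ε / (20 * C1) with hδ
  have hδ0 : 0 < δ := by positivity
  set R : ℝ := 40 * C3 / ε with hR
  have hR0 : 0 < R := by positivity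
  obtain ⟨A, Ba, hA, hBa⟩ := hCHa W K hW
  obtain ⟨Bc, hBc⟩ := hCHc K A R
  obtain ⟨Bd, hBd⟩ := hCHd K A δ hδ0
  set B : ℕ := max (max Ba Bc) (max Bd (max A 2)) with hB
  have hB1 : Ba ≤ B := (le_max_left _ _).trans (le_max_left _ _)
  have hB2 : Bc ≤ B := (le_max_right _ _).trans (le_max_left _ _)
  have hB3 : Bd ≤ B := (le_max_left _ _).trans (le_max_right _ _)
  have hB4 : A ≤ B := (le_max_left _ _).trans ((le_max_right _ _).trans (le_max_right _ _))
  have hB5 : 2 ≤ B := (le_max_right _ _).trans ((le_max_right _ _).trans (le_max_right _ _))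
  have hB6 : 1 ≤ B := by omega
  have hAB : 1 ≤ A * B := Nat.mul_pos hA hB6
  refine ⟨max (Real.exp (ys A B 0)) (max 1 (120 * C1 / ε)), ?_⟩
  intro h hh
  have hh1 : Real.exp (ys A B 0) ≤ h := (le_max_left _ _).trans hh
  have hh2 : 1 ≤ h := (le_max_left _ _).trans ((le_max_right _ _).trans hh)
  have hh3 : 120 * C1 / ε ≤ h := (le_max_right _ _).trans ((le_max_right _ _).trans hh)
  obtain ⟨Xe, hXe⟩ := hCHe C4 K A B hA hB5 hB4
  refine ⟨max Xe (max (4 * h) (max 4 ((10 * C2 / ε) ^ 2))), ?_⟩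
  intro X hX
  have hX1 : Xe ≤ X := (le_max_left _ _).trans hX
  have hX2 : 4 * h ≤ X := (le_max_left _ _).trans ((le_max_right _ _).trans hX)
  have hX3 : 4 ≤ X := (le_max_left _ _).trans ((le_max_right _ _).trans ((le_max_right _ _).trans hX))
  have hX4 : (10 * C2 / ε) ^ 2 ≤ X :=
    (le_max_right _ _).trans ((le_max_right _ _).trans ((le_max_right _ _).trans hX))
  obtain ⟨J, hJ1, hJ2⟩ := hXe X hX1
  obtain ⟨S, hS1, hS2, hS3⟩ := hbad W K A B J X hA hB6 hK2 hX3 hJ2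
  refine ⟨S, hS1, hS2, ?_⟩
  have hXpos : 0 < X := by linarith
  have hhpos : 0 < h := by linarith
  set T : ℝ := X / h with hT
  have hT4 : 4 ≤ T := by rw [hT, le_div_iff₀ hhpos]; exact hX2
  have hTX : T ≤ X := by rw [hT]; exact div_le_self hXpos.le hh2
  have hTpos : 0 < T := by linarith
  have hsqrt : X ^ (1 / 2 : ℝ) * X ^ (1 / 2 : ℝ) = X := by
    rw [← Real.rpow_add hXpos]; norm_num
  have hsq1 : 1 ≤ X ^ (1 / 2 : ℝ) := Real.one_le_rpow (by linarith) (by norm_num)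
  have hsqX : X ^ (1 / 2 : ℝ) ≤ X := by nlinarith
  have hyJ : ∀ j ≤ J, Real.exp (ys A B j + 1) ≤ X ^ (1 / 2 : ℝ) := by
    intro j hj
    have h1 : Real.exp (ys A B j + 1) ≤ Real.exp (ys A B J + 1) := by
      apply Real.exp_le_exp.2
      have := ys_mono hA hB6 hj
      have : (ys A B j : ℝ) ≤ ys A B J := by exact_mod_cast this
      linarith
    have h2 : Real.exp (ys A B J + 1) ≤ (J + 1) * Real.exp (ys A B J + 1) := by
      have : (0 : ℝ) ≤ J := Nat.cast_nonneg J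
      nlinarith [Real.exp_pos (ys A B J + 1 : ℝ)]
    linarith
  -- TKD at every scale
  have hE : ∀ j ≤ J, ∃ E : ℝ → ℂ, CB E ∧
      (∀ t, FX W b X t = -(1 / ((∑ p ∈ Ps W A B j, (1 : ℝ) / p : ℝ) : ℂ))
        * ∑ v ∈ Is W K A B j, Qc W K A B j v t * Fc W b X K j v t + E t) ∧
      Jg T (fun t => ‖E t‖ ^ 2) ≤ C2 * (2 / (K * 2 ^ j) + Real.exp (ys A B J) / X) := by
    intro j hj
    have hmass := hBa B hB1 j
    have hKj : (1 : ℝ) ≤ K * 2 ^ j := by
      have h1 : (1 : ℝ) ≤ 2 ^ j := one_le_pow₀ (by norm_num)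
      have h2 : (2 : ℝ) ≤ K := by exact_mod_cast hK2
      nlinarith
    have hmass' : (K : ℝ) * 2 ^ j ≤ ∑ p ∈ Ps W A B j, (1 : ℝ) / p := by
      refine le_trans (le_of_eq ?_) hmass
      push_cast; ring
    have hHs : 0 < Hs K j := Nat.mul_pos (by omega) (by positivity)
    obtain ⟨E, hE1, hE2, hE3⟩ := hTK W b (Hs K j) (Ps W A B j) (∑ p ∈ Ps W A B j, (1 : ℝ) / p) X T
      hW hHs (fun p hp => by
        obtain ⟨h1, h2, h3⟩ := mem_Ps hp
        refine ⟨h1, h2, h3.trans (le_trans ?_ ((hyJ j hj).trans hsqX))⟩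
        apply Real.exp_le_exp.2; linarith) rfl (hKj.trans hmass') hT4 hTX
    refine ⟨E, ?_, hE2, ?_⟩
    · have : E = fun t => FX W b X t + -(-(1 / ((∑ p ∈ Ps W A B j, (1 : ℝ) / p : ℝ) : ℂ))
        * ∑ v ∈ Is W K A B j, Qc W K A B j v t * Fc W b X K j v t) := by
        funext t
        have := hE2 t
        change FX W b X t = -(1 / ((∑ p ∈ Ps W A B j, (1 : ℝ) / p : ℝ) : ℂ))
          * ∑ v ∈ Is W K A B j, Qc W K A B j v t * Fc W b X K j v t + E t at this
        rw [this]; ring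
      rw [this]
      exact (CB_FX W b X).add (((CB.const _).mul (CB.sum _ fun v _ =>
        (CB_Qc W K A B j v).mul (CB_Fc W b X K j v))).neg)
    · refine hE3.trans ?_
      have hcard : ((Ps W A B j).card : ℝ) ≤ Real.exp (ys A B J) := by
        refine (card_Ps_le W A B j).trans (Real.exp_le_exp.2 ?_)
        exact_mod_cast ys_mono hA hB6 hj
      have h1 : 1 / ∑ p ∈ Ps W A B j, (1 : ℝ) / p ≤ 1 / (K * 2 ^ j) := by
        apply one_div_le_one_div_of_le (by linarith) hmass'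
      have h2 : 1 / ((Hs K j : ℕ) : ℝ) ^ 2 ≤ 1 / (K * 2 ^ j) := by
        apply one_div_le_one_div_of_le (by linarith)
        unfold Hs
        push_cast
        nlinarith
      have h3 : (2 : ℝ) / (K * 2 ^ j) = 1 / (K * 2 ^ j) + 1 / (K * 2 ^ j) := by ring
      gcongr
      rw [h3]
      linarith
  choose! E hE1 hE2 hE3 using hE
  set Lf : ℕ → ℝ := fun j => ∑ p ∈ Ps W A B j, (1 : ℝ) / p with hLf
  have hLf1 : ∀ j ≤ J, 1 ≤ Lf j := by
    intro j _
    have hmass := hBa B hB1 j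
    have hKj : 1 ≤ K * 2 ^ j := Nat.mul_pos (by omega) (by positivity)
    exact le_trans (by exact_mod_cast hKj) hmass
  -- cell facts
  have hIc := fun j => (hCHb W A B K j hA hB6 hK2).1
  have hcell := fun j => (hCHb W A B K j hA hB6 hK2).2
  -- bounds at each scale
  have hη : ∀ j ≤ J, Jg T (fun t => ‖E j t‖ ^ 2) ≤ C2 * (2 / (K * 2 ^ j) + Real.exp (ys A B J) / X) :=
    hE3
  set T2 : ℝ := Real.sqrt 2 * T with hT2
  have hMpos : ∀ j ≤ J, ∀ v ∈ Is W K A B j, 1 ≤ X * Real.exp (-(v : ℝ) / Hs K j) := by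
    intro j hj v hv
    obtain ⟨_, hv2, _⟩ := hcell j v hv
    have h1 : Real.exp ((v : ℝ) / Hs K j) ≤ X := by
      refine le_trans (Real.exp_le_exp.2 ?_) ((hyJ j hj).trans hsqX)
      linarith
    rw [neg_div, Real.exp_neg, ← div_eq_mul_inv, le_div_iff₀ (Real.exp_pos _)]
    linarith
  have hD0 : Jg T (Dl W b K A B X E 0) ≤ 2 * (2 * C1 * δ)
      + 2 * (C2 * (2 / (K * 2 ^ 0) + Real.exp (ys A B J) / X)) := by
    refine Jg_Dl_zero (2 * C1) (by positivity) W b K A B X T δ _ E (hE1 0 (Nat.zero_le _)) hTpos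
      hδ0.le ?_ (hIc 0) ?_ (hη 0 (Nat.zero_le _))
    · intro v hv
      obtain ⟨_, hv2, _⟩ := hcell 0 v hv
      refine (hF W b (X * Real.exp (-(v : ℝ) / Hs K 0)) T (hMpos 0 (Nat.zero_le _) v hv) hT4).trans ?_
      have h1 : T / (X * Real.exp (-(v : ℝ) / Hs K 0)) ≤ 1 := by
        rw [hT, neg_div, Real.exp_neg]
        have h3 : Real.exp ((v : ℝ) / Hs K 0) ≤ h := (Real.exp_le_exp.2 hv2).trans hh1
        rw [div_div, div_le_one (by positivity)]
        have h4 : 0 < (Real.exp ((v : ℝ) / Hs K 0))⁻¹ := by positivity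
        have h5 : 1 ≤ h * (Real.exp ((v : ℝ) / Hs K 0))⁻¹ := by
          rw [← div_eq_mul_inv, le_div_iff₀ (Real.exp_pos _)]; linarith
        calc X = X * 1 := (mul_one X).symm
          _ ≤ X * (h * (Real.exp ((v : ℝ) / Hs K 0))⁻¹) := by gcongr
          _ = _ := by ring
      nlinarith
    · intro v hv
      exact hBd B hB3 (Vc K 0 v) (hcell 0 v hv).1
  have hDs : ∀ j, j + 1 ≤ J → Jg T (Dl W b K A B X E (j + 1)) ≤ 2 * (C3 * Real.exp (-(R * 2 ^ j)))
      + 2 * (C2 * (2 / (K * 2 ^ (j + 1)) + Real.exp (ys A B J) / X)) := by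
    intro j hj
    refine Jg_Dl_succ C3 W b K A B j X T _ _ E (hE1 (j + 1) hj) hTpos
      (Real.exp_pos _).le hC3.le ?_ (hIc (j + 1)) (hIc j) ?_ (hη (j + 1) hj)
    · intro v hv v' hv'
      obtain ⟨hv1, hv2, hv3, hv4⟩ := hcell (j + 1) v hv
      obtain ⟨hw1, hw2, hw3, hw4⟩ := hcell j v' hv'
      have hVpos : (0 : ℝ) < Vc K j v' := by
        refine lt_of_lt_of_le ?_ hw1
        unfold xs
        exact_mod_cast Nat.pow_pos hB6
      have hM1 := hMpos (j + 1) hj v hv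
      have hMp : 0 < X * Real.exp (-(v : ℝ) / Hs K (j + 1)) := by linarith
      have h1 := hM ((Ps W A B j).filter (fun p => cell (Hs K j) p = v')) (Vc K j v')
        (X * Real.exp (-(v : ℝ) / Hs K (j + 1))) T ⌈Vc K (j + 1) v / Vc K j v'⌉₊
        (aX W b (X * Real.exp (-(v : ℝ) / Hs K (j + 1)))) hVpos.le hM1
        (fun p hp => ⟨(mem_Ps (Finset.mem_filter.1 hp).1).1, hw3 p hp⟩) hw4 hT4 (by
          have h2 := Nat.le_ceil (Vc K (j + 1) v / Vc K j v')
          rw [div_le_iff₀ hVpos] at h2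
          calc T ≤ X * 1 := by rw [mul_one]; exact hTX
            _ ≤ X * (Real.exp (-(v : ℝ) / Hs K (j + 1))
                * Real.exp (⌈Vc K (j + 1) v / Vc K j v'⌉₊ * Vc K j v')) := by
                gcongr
                rw [← Real.exp_add]
                apply Real.one_le_exp
                have : -(v : ℝ) / Hs K (j + 1) = - Vc K (j + 1) v := by unfold Vc; ring
                rw [this]; linarith
            _ = _ := by ring)
        (norm_aX_le W b _)
      rw [Jg_eq]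
      refine le_trans (le_of_eq ?_) h1
      apply integral_congr_ae
      filter_upwards with t
      unfold Fc
      rw [FX_eq_sum W b hMp t]
      rfl
    · intro v hv v' hv'
      obtain ⟨hv1, hv2, _, _⟩ := hcell (j + 1) v hv
      obtain ⟨hw1, hw2, _, _⟩ := hcell j v' hv'
      exact hBc B hB2 j (Vc K (j + 1) v) (Vc K j v') hv1 hv2 hw1 hw2
  have hDj : ∀ j ≤ J, Jg T (Dl W b K A B X E j) ≤ (if j = 0 then 4 * C1 * δ else 0)
      + 4 * C3 / R * (1 / 2) ^ j + 4 * C2 / K * (1 / 2) ^ j + 2 * C2 * (Real.exp (ys A B J) / X) := by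
    intro j hj
    cases j with
    | zero =>
      refine hD0.trans ?_
      have : 0 ≤ 4 * C3 / R := by positivity
      simp only [if_true, pow_zero, mul_one]
      have e1 : 2 * (C2 * (2 / (K : ℝ) + Real.exp (ys A B J) / X))
        = 4 * C2 / K + 2 * C2 * (Real.exp (ys A B J) / X) := by ring
      linarith
    | succ j =>
      refine (hDs j hj).trans ?_
      have h1 : Real.exp (-(R * 2 ^ j)) ≤ 1 / (R * 2 ^ j) := by
        rw [Real.exp_neg, ← one_div]
        apply one_div_le_one_div_of_le (by positivity)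
        linarith [Real.add_one_le_exp (R * 2 ^ j)]
      have e1 : 2 * (C2 * (2 / ((K : ℝ) * 2 ^ (j + 1)) + Real.exp (ys A B J) / X))
        = 4 * C2 / K * (1 / 2) ^ (j + 1) + 2 * C2 * (Real.exp (ys A B J) / X) := by
        rw [one_div, inv_pow]
        field_simp
        ring
      have e2 : 2 * (C3 * (1 / (R * 2 ^ j))) = 4 * C3 / R * (1 / 2) ^ (j + 1) := by
        rw [one_div, one_div, inv_pow, pow_succ]
        field_simp
        ring
      have h2 : 2 * (C3 * Real.exp (-(R * 2 ^ j))) ≤ 2 * (C3 * (1 / (R * 2 ^ j))) := by gcongr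
      simp only [Nat.add_eq_zero_iff, one_ne_zero, and_false, if_false, zero_add]
      linarith
  have hsumD : ∑ j ∈ Finset.range (J + 1), Jg T (Dl W b K A B X E j)
      ≤ 4 * C1 * δ + 8 * C3 / R + 8 * C2 / K + 2 * C2 * (X ^ (1 / 2 : ℝ) / X) := by
    have hgeo : ∑ j ∈ Finset.range (J + 1), (1 / 2 : ℝ) ^ j ≤ 2 := by
      exact sum_geometric_two_le _
    calc _ ≤ ∑ j ∈ Finset.range (J + 1), ((if j = 0 then 4 * C1 * δ else 0)
          + 4 * C3 / R * (1 / 2) ^ j + 4 * C2 / K * (1 / 2) ^ j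
          + 2 * C2 * (Real.exp (ys A B J) / X)) := by
          apply Finset.sum_le_sum
          intro j hj
          exact hDj j (by rw [Finset.mem_range] at hj; omega)
      _ = 4 * C1 * δ + 4 * C3 / R * ∑ j ∈ Finset.range (J + 1), (1 / 2 : ℝ) ^ j
          + 4 * C2 / K * ∑ j ∈ Finset.range (J + 1), (1 / 2 : ℝ) ^ j
          + 2 * C2 * ((J + 1) * Real.exp (ys A B J) / X) := by
          rw [Finset.sum_add_distrib, Finset.sum_add_distrib, Finset.sum_add_distrib,
            Finset.sum_ite_eq' (Finset.range (J + 1)) 0, ← Finset.mul_sum, ← Finset.mul_sum,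
            Finset.sum_const, Finset.card_range, nsmul_eq_mul]
          simp only [Finset.mem_range, Nat.succ_pos, if_true]
          push_cast
          ring
      _ ≤ 4 * C1 * δ + 4 * C3 / R * 2 + 4 * C2 / K * 2 + 2 * C2 * (X ^ (1 / 2 : ℝ) / X) := by
          have : ((J : ℝ) + 1) * Real.exp (ys A B J) ≤ X ^ (1 / 2 : ℝ) := by
            refine le_trans ?_ hJ1
            gcongr
            linarith
          gcongr
      _ = _ := by ring
  -- tail
  have htail : Real.exp (-(h ^ 2 / 8)) * Jg T2 (fun t => ‖FX W b X t‖ ^ 2) ≤ 24 * C1 / h := by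
    have h2 : Real.sqrt 2 ≤ 2 := by
      rw [Real.sqrt_le_left (by norm_num)]; norm_num
    have h2' : 1 ≤ Real.sqrt 2 := Real.one_le_sqrt.2 (by norm_num)
    have h1 : Jg T2 (fun t => ‖FX W b X t‖ ^ 2) ≤ C1 * 3 := by
      refine (hF W b X T2 (by linarith) (by rw [hT2]; nlinarith)).trans ?_
      gcongr
      have : T2 / X ≤ 2 := by
        rw [div_le_iff₀ hXpos, hT2]
        nlinarith
      linarith
    have h3 : Real.exp (-(h ^ 2 / 8)) ≤ 8 / h := by
      rw [Real.exp_neg, ← one_div]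
      calc 1 / Real.exp (h ^ 2 / 8) ≤ 1 / (h ^ 2 / 8) := by
            apply one_div_le_one_div_of_le (by positivity)
            linarith [Real.add_one_le_exp (h ^ 2 / 8)]
        _ = 8 / h ^ 2 := by field_simp
        _ ≤ 8 / h := by
            gcongr
            nlinarith
    calc _ ≤ 8 / h * (C1 * 3) := by
          gcongr
          exact Jg_nonneg T2 fun t => by positivity
      _ = _ := by ring
  -- pointwise domination
  have hpt : ∀ t, ‖FX W b X t‖ ^ 2 * Real.exp (-(t / T) ^ 2)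
      ≤ (∑ j ∈ Finset.range (J + 1), Dl W b K A B X E j t) * Real.exp (-(t / T) ^ 2)
        + Real.exp (-(h ^ 2 / 8)) * (‖FX W b X t‖ ^ 2 * Real.exp (-(t / T2) ^ 2))
        + ∑ k ∈ S, (Set.Ico (k : ℝ) (k + 1)).indicator (fun t => ‖FX W b X t‖ ^ 2) t := by
    intro t
    have hn1 : 0 ≤ Real.exp (-(h ^ 2 / 8)) * (‖FX W b X t‖ ^ 2 * Real.exp (-(t / T2) ^ 2)) := by
      positivity
    have hn2 : 0 ≤ ∑ k ∈ S, (Set.Ico (k : ℝ) (k + 1)).indicator
        (fun t => ‖FX W b X t‖ ^ 2) t :=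
      Finset.sum_nonneg fun k _ => Set.indicator_nonneg (fun _ _ => by positivity) _
    have hn3 : 0 ≤ (∑ j ∈ Finset.range (J + 1), Dl W b K A B X E j t)
        * Real.exp (-(t / T) ^ 2) :=
      mul_nonneg (Finset.sum_nonneg fun j _ => Dl_nonneg W b K A B X E j t) (Real.exp_pos _).le
    rcases dom W b K A B X E Lf J hLf1 t (fun j hj => hE2 j hj t) J le_rfl with ⟨i, hi, h1⟩ | h1
    · have h2 : Dl W b K A B X E i t ≤ ∑ j ∈ Finset.range (J + 1), Dl W b K A B X E j t :=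
        Finset.single_le_sum (f := fun j => Dl W b K A B X E j t)
          (fun j _ => Dl_nonneg W b K A B X E j t) (Finset.mem_range.2 (by omega))
      have h3 := mul_le_mul_of_nonneg_right (h1.trans h2) (Real.exp_pos (-(t / T) ^ 2)).le
      linarith
    · by_cases hf : |((⌊t⌋ : ℤ) : ℝ)| ≤ X
      · have hS := hS3 t hf h1
        have h2 : ‖FX W b X t‖ ^ 2 ≤ ∑ k ∈ S, (Set.Ico (k : ℝ) (k + 1)).indicator
            (fun t => ‖FX W b X t‖ ^ 2) t := by
          have h3 := Finset.single_le_sum (f := fun k : ℤ => (Set.Ico (k : ℝ) (k + 1)).indicator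
            (fun t => ‖FX W b X t‖ ^ 2) t)
            (fun k _ => Set.indicator_nonneg (fun _ _ => by positivity) _) hS
          refine le_trans (le_of_eq ?_) h3
          rw [Set.indicator_of_mem]
          exact ⟨Int.floor_le t, Int.lt_floor_add_one t⟩
        have h4 : Real.exp (-(t / T) ^ 2) ≤ 1 := Real.exp_le_one_iff.2 (by
          have := sq_nonneg (t / T); linarith)
        have h5 : ‖FX W b X t‖ ^ 2 * Real.exp (-(t / T) ^ 2) ≤ ‖FX W b X t‖ ^ 2 := by
          have : 0 ≤ ‖FX W b X t‖ ^ 2 := by positivity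
          nlinarith
        linarith
      · push Not at hf
        have h2 : X / 2 ≤ |t| := by
          have h3 := Int.floor_le t
          have h4 := (Int.lt_floor_add_one t).le
          rcases le_total 0 ((⌊t⌋ : ℤ) : ℝ) with h5 | h5
          · rw [abs_of_nonneg h5] at hf
            have := le_abs_self t
            linarith
          · rw [abs_of_nonpos h5] at hf
            have := neg_abs_le t
            linarith
        have h3 : h ^ 2 / 8 ≤ (t / T) ^ 2 / 2 := by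
          have h4 : h / 2 ≤ |t / T| := by
            rw [abs_div, abs_of_pos hTpos, le_div_iff₀ hTpos, hT]
            calc h / 2 * (X / h) = X / 2 := by field_simp
              _ ≤ _ := h2
          have h5 : (h / 2) ^ 2 ≤ |t / T| ^ 2 := by gcongr
          rw [sq_abs] at h5
          linarith
        have h6 : (t / T2) ^ 2 = (t / T) ^ 2 / 2 := gauss_half t T
        have h7 : Real.exp (-(t / T) ^ 2) ≤ Real.exp (-(h ^ 2 / 8)) * Real.exp (-(t / T2) ^ 2) := by
          rw [← Real.exp_add]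
          apply Real.exp_le_exp.2
          rw [h6]
          linarith
        have h8 : ‖FX W b X t‖ ^ 2 * Real.exp (-(t / T) ^ 2)
            ≤ Real.exp (-(h ^ 2 / 8)) * (‖FX W b X t‖ ^ 2 * Real.exp (-(t / T2) ^ 2)) := by
          calc _ ≤ ‖FX W b X t‖ ^ 2 * (Real.exp (-(h ^ 2 / 8)) * Real.exp (-(t / T2) ^ 2)) := by
                gcongr
            _ = _ := by ring
        linarith
  -- integrate
  have hI1 : Integrable (fun t => (∑ j ∈ Finset.range (J + 1), Dl W b K A B X E j t)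
      * Real.exp (-(t / T) ^ 2)) := by
    refine CB.integrable (CB.sum _ fun j hj => ?_) hTpos
    exact CB_Dl W b K A B X E j (hE1 j (by rw [Finset.mem_range] at hj; omega))
  have hT2pos : 0 < T2 := by rw [hT2]; positivity
  have hI2 : Integrable (fun t => Real.exp (-(h ^ 2 / 8)) * (‖FX W b X t‖ ^ 2
      * Real.exp (-(t / T2) ^ 2))) :=
    (CB.integrable ((CB_FX W b X).norm.pow 2) hT2pos).const_mul _
  have hI3 : ∀ k ∈ S, Integrable
      ((Set.Ico (k : ℝ) (k + 1)).indicator (fun t => ‖FX W b X t‖ ^ 2)) := by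
    intro k _
    rw [integrable_indicator_iff measurableSet_Ico]
    exact (((continuous_FX W b X).norm.pow 2).integrableOn_Icc).mono_set Set.Ico_subset_Icc_self
  have hI0 : Integrable (fun t => ‖FX W b X t‖ ^ 2 * Real.exp (-(t / T) ^ 2)) :=
    CB.integrable ((CB_FX W b X).norm.pow 2) hTpos
  have hfin : ∫ t : ℝ, ‖FX W b X t‖ ^ 2 * Real.exp (-(t / T) ^ 2)
      ≤ ∑ j ∈ Finset.range (J + 1), Jg T (Dl W b K A B X E j)
        + Real.exp (-(h ^ 2 / 8)) * Jg T2 (fun t => ‖FX W b X t‖ ^ 2)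
        + ∑ k ∈ S, ∫ t in (k : ℝ)..(k + 1), ‖FX W b X t‖ ^ 2 := by
    have hI4 := hI1.add hI2
    have hI5 := integrable_finsetSum S hI3
    have h1 : ∫ t : ℝ, ((∑ j ∈ Finset.range (J + 1), Dl W b K A B X E j t)
          * Real.exp (-(t / T) ^ 2)
        + Real.exp (-(h ^ 2 / 8)) * (‖FX W b X t‖ ^ 2 * Real.exp (-(t / T2) ^ 2))
        + ∑ k ∈ S, (Set.Ico (k : ℝ) (k + 1)).indicator (fun t => ‖FX W b X t‖ ^ 2) t)
        = (∫ t : ℝ, (∑ j ∈ Finset.range (J + 1), Dl W b K A B X E j t)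
          * Real.exp (-(t / T) ^ 2))
        + (∫ t : ℝ, Real.exp (-(h ^ 2 / 8)) * (‖FX W b X t‖ ^ 2 * Real.exp (-(t / T2) ^ 2)))
        + ∫ t : ℝ, ∑ k ∈ S, (Set.Ico (k : ℝ) (k + 1)).indicator (fun t => ‖FX W b X t‖ ^ 2) t := by
      rw [← integral_add hI1 hI2]
      exact integral_add hI4 hI5
    refine (integral_mono hI0 (hI4.add hI5) hpt).trans ?_
    refine (le_of_eq h1).trans ?_
    apply le_of_eq
    congr 1
    · congr 1
      · rw [← Jg_eq, Jg_sum hTpos]
        intro j hj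
        exact CB_Dl W b K A B X E j (hE1 j (by rw [Finset.mem_range] at hj; omega))
      · rw [integral_const_mul]; rfl
    · rw [integral_finsetSum S hI3]
      refine Finset.sum_congr rfl fun k _ => ?_
      rw [integral_indicator measurableSet_Ico, integral_Ico_eq_integral_Ioc,
        intervalIntegral.integral_of_le (by linarith)]
  refine hfin.trans ?_
  have hc1 : 4 * C1 * δ = ε / 5 := by rw [hδ]; field_simp; ring
  have hc2 : 8 * C3 / R ≤ ε / 5 := by rw [hR]; apply le_of_eq; field_simp; ring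
  have hc3 : 8 * C2 / K ≤ ε / 5 := by
    rw [div_le_iff₀ (by positivity)]
    rw [div_le_iff₀ hε] at hK3
    linarith
  have hc4 : 2 * C2 * (X ^ (1 / 2 : ℝ) / X) ≤ ε / 5 := by
    have h1 : X ^ (1 / 2 : ℝ) / X = 1 / X ^ (1 / 2 : ℝ) := by
      rw [div_eq_div_iff hXpos.ne' (by positivity), one_mul, hsqrt]
    rw [h1, mul_one_div, div_le_iff₀ (by positivity)]
    have h2 : 10 * C2 / ε ≤ X ^ (1 / 2 : ℝ) := by
      rw [← Real.sqrt_eq_rpow]
      exact Real.le_sqrt_of_sq_le hX4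
    rw [div_le_iff₀ hε] at h2
    linarith
  have hc5 : 24 * C1 / h ≤ ε / 5 := by
    rw [div_le_iff₀ hhpos]
    rw [div_le_iff₀ hε] at hh3
    linarith
  linarith

end Pool.Agent.H24.MR
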