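import Mathlib
import Pool.Agent.H24.MR.BlockSum
import Pool.Agent.H24.MR.ChainFinal
import Pool.Agent.H9.MR.GM
import Pool.Agent.H9.MR.MO
import Pool.Agent.H9.MR.LV
import Pool.Agent.H9.MR.CHcd
import Pool.Agent.H59.MR.TKD
import Pool.Agent.H14.MR.FS
import Pool.Agent.H82.MR.HM
import Pool.Agent.H82.MR.CHab
import Pool.Agent.H18.MR.CHe
import Pool.Agent.H62.MR.ME
import Pool.Agent.H62.MR.MRF
import Pool.Agent.H37.MR.PH
import Pool.Agent.H22.MR.SB

/-!
The Matomaki-Radziwill theorem for the Liouville function in arithmetic progressions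
(project T1 on `MP_c59857_nt`), assembled from the modules.
-/

set_option autoImplicit false

namespace Pool.Agent.H24.MR

theorem ch_final : StatementCH :=
  ch gm (Pool.Agent.H59.MR.tkd gm) mo lv (Pool.Agent.H82.MR.cha Pool.Agent.H62.MR.me)
    Pool.Agent.H82.MR.chb chc chd Pool.Agent.H18.MR.che

theorem fs_final : StatementFS :=
  Pool.Agent.H14.MR.fs Pool.Agent.H62.MR.me (Pool.Agent.H59.MR.tkd gm) lv
    (Pool.Agent.H82.MR.hm be2) (Pool.Agent.H37.MR.ph be1) (Pool.Agent.H22.MR.sb be1)

/-- **Matomaki-Radziwill** for the Liouville function in arithmetic progressions. -/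
theorem mr : StatementMR := Pool.Agent.H62.MR.mrf (mr0_of fs_final ch_final)

end Pool.Agent.H24.MR
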